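import Mathlib
import Pool.Agent.Q263.SV.Fin
import Pool.Agent.H95R2.Leh.Congr

/-!
Composite solutions of `φ(N) ∣ N - a(N)` of the form `N = |n + h|`, `n` an integer with restricted
digits, `h` any integer.
-/

set_option autoImplicit false

open Finset

namespace Pool.Agent.Q263.LT

open Pool.Agent.Q263.MD (Dig)
open Pool.Agent.Q263.SV (Pr mem_Pr)
open Pool.Agent.H95R2.Leh (Leh)

/-- the part composed of the primes of `b` -/
lemma split (b : ℕ) (hb : b ≠ 0) : ∀ m : ℕ, 1 ≤ m → ∃ t s : ℕ, m = t * s ∧ s.Coprime b ∧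
    t ∈ Nat.factoredNumbers b.primeFactors := by
  intro m
  induction m using Nat.strong_induction_on with
  | _ m ih =>
    intro hm
    by_cases h : m.Coprime b
    · refine ⟨1, m, by ring, h, ?_⟩
      rw [Nat.mem_factoredNumbers']
      intro p hp h1
      exact absurd (Nat.dvd_one.1 h1) hp.one_lt.ne'
    · obtain ⟨p, hp, ⟨m', hm'⟩, hpb⟩ := Nat.Prime.not_coprime_iff_dvd.1 h
      have h0 : 1 ≤ m' := by
        rcases Nat.eq_zero_or_pos m' with h | h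
        · rw [h, mul_zero] at hm'; omega
        · exact h
      have hlt : m' < m := by
        rw [hm']
        have := hp.two_le
        nlinarith
      obtain ⟨t, s, h1, h2, h3⟩ := ih m' hlt h0
      refine ⟨p * t, s, by rw [hm', h1]; ring, h2, ?_⟩
      rw [Nat.mem_factoredNumbers'] at h3 ⊢
      intro r hr hrt
      rcases (Nat.Prime.dvd_mul hr).1 hrt with h4 | h4
      · rw [(Nat.prime_dvd_prime_iff_eq hr hp).1 h4]
        exact Nat.mem_primeFactors.2 ⟨hp, hpb, hb⟩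
      · exact h3 r hr h4

/-- the function `n ↦ n ^ (-δ)` -/
noncomputable def pw (δ : ℝ) : ℕ →* ℝ where
  toFun n := (n : ℝ) ^ (-δ)
  map_one' := by simp
  map_mul' m n := by
    push_cast
    exact Real.mul_rpow (Nat.cast_nonneg m) (Nat.cast_nonneg n)

lemma smooth_sum (b : ℕ) (δ : ℝ) (hδ : 0 < δ) : ∃ C : ℝ, 0 < C ∧ ∀ T : Finset ℕ,
    (∀ t ∈ T, t ∈ Nat.factoredNumbers b.primeFactors) → ∑ t ∈ T, (t : ℝ) ^ (-δ) ≤ C := by
  classical
  have h1 : ∀ {p : ℕ}, p.Prime → ‖pw δ p‖ < 1 := by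
    intro p hp
    have hp1 : (1 : ℝ) < p := by exact_mod_cast hp.one_lt
    show ‖(p : ℝ) ^ (-δ)‖ < 1
    rw [Real.norm_of_nonneg (by positivity)]
    exact Real.rpow_lt_one_of_one_lt_of_neg hp1 (by linarith)
  have h2 := (EulerProduct.summable_and_hasSum_factoredNumbers_prod_filter_prime_geometric
    (f := pw δ) h1 b.primeFactors).1
  have h0 : ∀ m : Nat.factoredNumbers b.primeFactors, 0 ≤ ‖pw δ m‖ := fun m => norm_nonneg _
  refine ⟨(∑' m : Nat.factoredNumbers b.primeFactors, ‖pw δ m‖) + 1, ?_, fun T hT => ?_⟩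
  · have : 0 ≤ ∑' m : Nat.factoredNumbers b.primeFactors, ‖pw δ m‖ := tsum_nonneg h0
    linarith
  · have h3 : ∑ t ∈ T, (t : ℝ) ^ (-δ) =
        ∑ m ∈ T.subtype (· ∈ Nat.factoredNumbers b.primeFactors), ‖pw δ m‖ := by
      rw [Finset.sum_subtype_of_mem (f := fun m : ℕ => ‖pw δ m‖) hT]
      refine Finset.sum_congr rfl fun t _ => ?_
      show (t : ℝ) ^ (-δ) = ‖(t : ℝ) ^ (-δ)‖
      rw [Real.norm_of_nonneg (by positivity)]
    rw [h3]
    have h4 := h2.sum_le_tsum (T.subtype (· ∈ Nat.factoredNumbers b.primeFactors))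
      (fun m _ => h0 m)
    linarith

lemma nat_sum (τ : ℝ) (hτ : 1 < τ) : ∃ C : ℝ, 0 < C ∧ ∀ S : Finset ℕ,
    ∑ s ∈ S, (s : ℝ) ^ (-τ) ≤ C := by
  have h1 : Summable (fun n : ℕ => (n : ℝ) ^ (-τ)) := Real.summable_nat_rpow.2 (by linarith)
  refine ⟨(∑' n : ℕ, (n : ℝ) ^ (-τ)) + 1, ?_, fun S => ?_⟩
  · have : 0 ≤ ∑' n : ℕ, (n : ℝ) ^ (-τ) := tsum_nonneg fun n => by positivity
    linarith
  · have := h1.sum_le_tsum S (fun m _ => by positivity)
    linarith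

lemma series (b : ℕ) (δ τ : ℝ) (hδ : 0 < δ) (hτ : 1 < τ) : ∃ C : ℝ, 0 < C ∧
    ∀ (A : Finset ℕ) (t s : ℕ → ℕ), (∀ m ∈ A, m = t m * s m ∧
      t m ∈ Nat.factoredNumbers b.primeFactors) →
    ∑ m ∈ A, (t m : ℝ) ^ (-δ) * (s m : ℝ) ^ (-τ) ≤ C := by
  classical
  obtain ⟨C1, hC1, h1⟩ := smooth_sum b δ hδ
  obtain ⟨C2, hC2, h2⟩ := nat_sum τ hτ
  refine ⟨C1 * C2, by positivity, fun A t s hA => ?_⟩
  have h3 := Pool.Agent.Q263.SV.sum_le_inj A (A.image t ×ˢ A.image s) (fun m => (t m, s m))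
    (fun m => (t m : ℝ) ^ (-δ) * (s m : ℝ) ^ (-τ)) (fun x => (x.1 : ℝ) ^ (-δ) * (x.2 : ℝ) ^ (-τ))
    (fun m hm => Finset.mem_product.2 ⟨Finset.mem_image_of_mem _ hm, Finset.mem_image_of_mem _ hm⟩)
    (fun m hm m' hm' h => by
      have e1 := (hA m hm).1
      have e2 := (hA m' hm').1
      simp only [Prod.mk.injEq] at h
      rw [e1, e2, h.1, h.2])
    (fun _ _ => le_rfl) (fun _ _ => by positivity)
  refine h3.trans ?_
  rw [Finset.sum_product]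
  simp only [← Finset.mul_sum, ← Finset.sum_mul]
  exact mul_le_mul (h1 _ (fun x hx => by
    obtain ⟨m, hm, rfl⟩ := Finset.mem_image.1 hx
    exact (hA m hm).2)) (h2 _) (Finset.sum_nonneg fun _ _ => by positivity) hC1.le

/-- a prime factor `p` of a solution `N`: `p - 1` divides `N - 1` -/
lemma leh_pred {N p : ℕ} (h : Leh N) (hp : p.Prime) (hpN : p ∣ N) : p - 1 ∣ N - 1 := by
  have h1 := Nat.totient_dvd_of_dvd hpN
  rw [Nat.totient_prime hp] at h1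
  exact h1.trans h.2.2

lemma pair {n n' : ℕ} {h : ℤ} {p s : ℕ} (hps : Nat.Coprime p s) (hs : s ∣ p - 1) (hp : p.Prime)
    (e : ℤ) (he : e = 1 ∨ e = -1)
    (h1 : Leh ((n : ℤ) + h).natAbs ∧ p ∣ ((n : ℤ) + h).natAbs ∧
      (((n : ℤ) + h).natAbs : ℤ) = e * ((n : ℤ) + h))
    (h2 : Leh ((n' : ℤ) + h).natAbs ∧ p ∣ ((n' : ℤ) + h).natAbs ∧
      (((n' : ℤ) + h).natAbs : ℤ) = e * ((n' : ℤ) + h)) : n ≡ n' [MOD p * s] := by
  have key : ∀ m : ℕ, (Leh ((m : ℤ) + h).natAbs ∧ p ∣ ((m : ℤ) + h).natAbs ∧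
      (((m : ℤ) + h).natAbs : ℤ) = e * ((m : ℤ) + h)) →
      (p : ℤ) ∣ (m : ℤ) + h ∧ (s : ℤ) ∣ e * ((m : ℤ) + h) - 1 := by
    intro m hm
    obtain ⟨g1, g2, g3⟩ := hm
    refine ⟨Int.natCast_dvd.2 g2, ?_⟩
    have g4 := hs.trans (leh_pred g1 hp g2)
    have g5 : ((((m : ℤ) + h).natAbs - 1 : ℕ) : ℤ) = e * ((m : ℤ) + h) - 1 := by
      rw [Nat.cast_sub (by have := g1.1; omega), g3]
      norm_num
    rw [← g5]
    exact_mod_cast g4
  obtain ⟨a1, a2⟩ := key n h1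
  obtain ⟨b1, b2⟩ := key n' h2
  have c1 : (p : ℤ) ∣ (n' : ℤ) - n := by
    have := dvd_sub b1 a1
    have e1 : ((n' : ℤ) + h) - ((n : ℤ) + h) = (n' : ℤ) - n := by ring
    rwa [e1] at this
  have c2 : (s : ℤ) ∣ (n' : ℤ) - n := by
    have := dvd_sub b2 a2
    have e1 : (e * ((n' : ℤ) + h) - 1) - (e * ((n : ℤ) + h) - 1) = e * ((n' : ℤ) - n) := by ring
    rw [e1] at this
    rcases he with rfl | rfl
    · simpa using this
    · have h3 := (dvd_neg (a := (s : ℤ))).2 this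
      have e2 : -(-1 * ((n' : ℤ) - n)) = (n' : ℤ) - n := by ring
      rwa [e2] at h3
  rw [Nat.modEq_iff_dvd]
  push_cast
  exact IsCoprime.mul_dvd (Nat.isCoprime_iff_coprime.2 hps) c1 c2

lemma pow_bound (a σ M p t s P : ℝ) (hM : 0 ≤ M) (hp0 : 0 < p) (ht1 : 0 < t) (hs1 : 0 < s)
    (hP0 : 0 < P) (hPp : P ≤ p) (hts : t * s ≤ p) (ha0 : 0 < a) (haσ : a < σ) :
    (p * s) ^ (1 - σ) * (M / (p * s)) ≤
      M * (P ^ (-a) * (t ^ (-(σ - a)) * s ^ (-(2 * σ - a)))) := by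
  have hq0 : 0 < p * s := by positivity
  have e1 : (p * s) ^ (1 - σ) * (M / (p * s)) = M * (p ^ (-σ) * s ^ (-σ)) := by
    rw [← Real.mul_rpow hp0.le hs1.le, Real.rpow_sub hq0, Real.rpow_one,
      Real.rpow_neg (by positivity)]
    field_simp
  rw [e1]
  refine mul_le_mul_of_nonneg_left ?_ hM
  have e2 : p ^ (-σ) = p ^ (-a) * p ^ (-(σ - a)) := by
    rw [← Real.rpow_add hp0]; congr 1; ring
  have e3 : p ^ (-a) ≤ P ^ (-a) := Real.rpow_le_rpow_of_nonpos hP0 hPp (by linarith)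
  have e4 : p ^ (-(σ - a)) ≤ t ^ (-(σ - a)) * s ^ (-(σ - a)) := by
    rw [← Real.mul_rpow ht1.le hs1.le]
    exact Real.rpow_le_rpow_of_nonpos (by positivity) hts (by linarith)
  have e6 : s ^ (-(2 * σ - a)) = s ^ (-(σ - a)) * s ^ (-σ) := by
    rw [← Real.rpow_add hs1]; congr 1; ring
  rw [e2, e6]
  calc p ^ (-a) * p ^ (-(σ - a)) * s ^ (-σ) ≤
        P ^ (-a) * (t ^ (-(σ - a)) * s ^ (-(σ - a))) * s ^ (-σ) := by
        refine mul_le_mul_of_nonneg_right ?_ (by positivity)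
        exact mul_le_mul e3 e4 (by positivity) (by positivity)
    _ = _ := by ring

open Classical in
/-- solutions with a prime factor in `(P, b ^ (k / B)]` -/
theorem big {b : ℕ} (hb : 2 ≤ b) (a : ℝ) (ha0 : 0 < a) (ha : a < 1) :
    ∃ (B : ℕ) (C : ℝ), 1 ≤ B ∧ 0 < C ∧ ∀ (k : ℕ) (D : Fin k → Finset ℕ),
      (∀ i, ∀ d ∈ D i, d < b) → (∀ i, 2 ≤ (D i).card) → ∀ (h : ℤ) (P : ℕ), 1 ≤ P →
      (((Dig b k D).filter (fun n : ℕ => Leh ((n : ℤ) + h).natAbs ∧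
        ∃ p, p.Prime ∧ p ∣ ((n : ℤ) + h).natAbs ∧ P < p ∧ p ^ B ≤ b ^ k)).card : ℝ) ≤
        C * (Dig b k D).card * (P : ℝ) ^ (-a) := by
  obtain ⟨σ, hσ⟩ : ∃ σ : ℝ, σ = 1 - (1 - a) / 4 := ⟨_, rfl⟩
  obtain ⟨B, K, hB, hequi⟩ := Pool.Agent.Q263.MD.equi hb (1 - σ) (by rw [hσ]; linarith)
  obtain ⟨C1, hC1, hser⟩ := series b (σ - a) (2 * σ - a) (by rw [hσ]; linarith)
    (by rw [hσ]; linarith)
  refine ⟨2 * B, 2 * |K| * C1 + b, by omega, by positivity, ?_⟩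
  intro k D hD hD2 h P hP
  have hP0 : (0 : ℝ) < P := by exact_mod_cast hP
  have hP1 : (1 : ℝ) ≤ P := by exact_mod_cast hP
  set S := Dig b k D with hS
  have hS0 : (0 : ℝ) ≤ S.card := Nat.cast_nonneg _
  rcases Nat.lt_or_ge P b with hPb | hPb
  · have h1 : ((S.filter (fun n : ℕ => Leh ((n : ℤ) + h).natAbs ∧
        ∃ p, p.Prime ∧ p ∣ ((n : ℤ) + h).natAbs ∧ P < p ∧ p ^ (2 * B) ≤ b ^ k)).card : ℝ) ≤ S.card := by
      exact_mod_cast Finset.card_filter_le _ _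
    have h2 : 1 ≤ (b : ℝ) * (P : ℝ) ^ (-a) := by
      have h3 : (P : ℝ) ^ a ≤ b := by
        calc (P : ℝ) ^ a ≤ (P : ℝ) ^ (1 : ℝ) := Real.rpow_le_rpow_of_exponent_le hP1 ha.le
          _ = P := Real.rpow_one _
          _ ≤ b := by exact_mod_cast hPb.le
      rw [Real.rpow_neg hP0.le, ← div_eq_mul_inv, le_div_iff₀ (by positivity), one_mul]
      exact h3
    have h4 : 0 ≤ 2 * |K| * C1 * (P : ℝ) ^ (-a) := by positivity
    calc _ ≤ (S.card : ℝ) * 1 := by rw [mul_one]; exact h1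
      _ ≤ S.card * (b * (P : ℝ) ^ (-a) + 2 * |K| * C1 * (P : ℝ) ^ (-a)) :=
          mul_le_mul_of_nonneg_left (by linarith) hS0
      _ = _ := by ring
  -- the splitting of `p - 1`
  have hsp : ∀ m : ℕ, ∃ t s : ℕ, 1 ≤ m → m = t * s ∧ s.Coprime b ∧
      t ∈ Nat.factoredNumbers b.primeFactors := by
    intro m
    by_cases hm : 1 ≤ m
    · obtain ⟨t, s, h1⟩ := split b (by omega) m hm
      exact ⟨t, s, fun _ => h1⟩
    · exact ⟨0, 0, fun h => absurd h hm⟩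
  choose t s hts using hsp
  set Q := (Finset.Icc (P + 1) (b ^ k)).filter (fun p : ℕ => p.Prime ∧ p ^ (2 * B) ≤ b ^ k) with hQ
  set F : ℕ → ℤ → Finset ℕ := fun p e => S.filter (fun n : ℕ => Leh ((n : ℤ) + h).natAbs ∧
      p ∣ ((n : ℤ) + h).natAbs ∧ (((n : ℤ) + h).natAbs : ℤ) = e * ((n : ℤ) + h)) with hF
  have hsub : (S.filter (fun n : ℕ => Leh ((n : ℤ) + h).natAbs ∧
        ∃ p, p.Prime ∧ p ∣ ((n : ℤ) + h).natAbs ∧ P < p ∧ p ^ (2 * B) ≤ b ^ k)) ⊆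
      Q.biUnion (fun p => F p 1 ∪ F p (-1)) := by
    intro n hn
    rw [Finset.mem_filter] at hn
    obtain ⟨hnS, hL, p, hp, hpN, hPp, hpk⟩ := hn
    rw [Finset.mem_biUnion]
    refine ⟨p, ?_, ?_⟩
    · rw [hQ, Finset.mem_filter, Finset.mem_Icc]
      exact ⟨⟨hPp, (Nat.le_self_pow (by omega) p).trans hpk⟩, hp, hpk⟩
    · rw [Finset.mem_union]
      rcases le_total 0 ((n : ℤ) + h) with h0 | h0
      · left
        rw [hF, Finset.mem_filter]
        exact ⟨hnS, hL, hpN, by rw [Int.natAbs_of_nonneg h0, one_mul]⟩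
      · right
        rw [hF, Finset.mem_filter]
        exact ⟨hnS, hL, hpN, by rw [Int.ofNat_natAbs_of_nonpos h0]; ring⟩
  have hFp : ∀ p ∈ Q, ∀ e : ℤ, (e = 1 ∨ e = -1) → ((F p e).card : ℝ) ≤
      |K| * S.card * ((P : ℝ) ^ (-a) * ((t (p - 1) : ℝ) ^ (-(σ - a)) * (s (p - 1) : ℝ) ^ (-(2 * σ - a)))) := by
    intro p hp e he
    rw [hQ, Finset.mem_filter, Finset.mem_Icc] at hp
    obtain ⟨⟨hPp, -⟩, hpr, hpk⟩ := hp
    have hp2 := hpr.two_le
    obtain ⟨h1, h2, h3⟩ := hts (p - 1) (by omega)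
    have ht0 : 0 < t (p - 1) := by
      rcases Nat.eq_zero_or_pos (t (p - 1)) with h | h
      · rw [h, zero_mul] at h1; omega
      · exact h
    have hs0 : 0 < s (p - 1) := by
      rcases Nat.eq_zero_or_pos (s (p - 1)) with h | h
      · rw [h, mul_zero] at h1; omega
      · exact h
    have ht1 : (0 : ℝ) < t (p - 1) := by exact_mod_cast ht0
    have hs1 : (0 : ℝ) < s (p - 1) := by exact_mod_cast hs0
    have hsd : s (p - 1) ∣ p - 1 := ⟨t (p - 1), by rw [mul_comm]; exact h1⟩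
    have hps : Nat.Coprime p (s (p - 1)) := by
      rw [Nat.Prime.coprime_iff_not_dvd hpr]
      intro h4
      have := Nat.le_of_dvd (by omega) (h4.trans hsd)
      omega
    have hpb : Nat.Coprime p b := by
      rw [Nat.Prime.coprime_iff_not_dvd hpr]
      intro h4
      have := Nat.le_of_dvd (by omega) h4
      omega
    have hp0 : (0 : ℝ) < p := by exact_mod_cast hpr.pos
    -- the power bound
    have hpow : ((p * s (p - 1) : ℕ) : ℝ) ^ (1 - σ) * (S.card / ((p * s (p - 1) : ℕ) : ℝ)) ≤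
        S.card * ((P : ℝ) ^ (-a) * ((t (p - 1) : ℝ) ^ (-(σ - a)) * (s (p - 1) : ℝ) ^ (-(2 * σ - a)))) := by
      have e5 : (t (p - 1) : ℝ) * s (p - 1) ≤ p := by
        have : t (p - 1) * s (p - 1) ≤ p := by rw [← h1]; omega
        exact_mod_cast this
      push_cast
      exact pow_bound a σ S.card p (t (p - 1)) (s (p - 1)) P hS0 hp0 ht1 hs1 hP0
        (by exact_mod_cast (by omega : P ≤ p)) e5 ha0 (by rw [hσ]; linarith)
    rcases (F p e).eq_empty_or_nonempty with hE | ⟨n0, hn0⟩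
    · rw [hE, Finset.card_empty, Nat.cast_zero]
      exact mul_nonneg (mul_nonneg (abs_nonneg K) hS0) (by positivity)
    · rw [hF, Finset.mem_filter] at hn0
      have h5 : F p e ⊆ S.filter (fun n => n ≡ n0 [MOD p * s (p - 1)]) := by
        intro n hn
        rw [hF, Finset.mem_filter] at hn
        rw [Finset.mem_filter]
        exact ⟨hn.1, pair hps hsd hpr e he hn.2 hn0.2⟩
      have hqk : (p * s (p - 1)) ^ B ≤ b ^ k := by
        refine le_trans ?_ hpk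
        rw [pow_mul]
        apply Nat.pow_le_pow_left
        rw [sq]
        apply Nat.mul_le_mul_left
        exact (Nat.le_of_dvd (by omega) hsd).trans (by omega)
      have h6 := hequi (p * s (p - 1)) (Nat.mul_pos hpr.pos hs0)
        (Nat.Coprime.mul_right hpb.symm h2.symm) k hqk D hD hD2 n0
      have h7 : 0 ≤ ((p * s (p - 1) : ℕ) : ℝ) ^ (1 - σ) * (S.card / ((p * s (p - 1) : ℕ) : ℝ)) :=
        mul_nonneg (Real.rpow_nonneg (Nat.cast_nonneg _) _) (div_nonneg hS0 (Nat.cast_nonneg _))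
      calc ((F p e).card : ℝ) ≤ ((S.filter (fun n => n ≡ n0 [MOD p * s (p - 1)])).card : ℝ) := by
            exact_mod_cast Finset.card_le_card h5
        _ ≤ K * ((p * s (p - 1) : ℕ) : ℝ) ^ (1 - σ) * (S.card / ((p * s (p - 1) : ℕ) : ℝ)) := h6
        _ = K * (((p * s (p - 1) : ℕ) : ℝ) ^ (1 - σ) * (S.card / ((p * s (p - 1) : ℕ) : ℝ))) := by ring
        _ ≤ |K| * (((p * s (p - 1) : ℕ) : ℝ) ^ (1 - σ) * (S.card / ((p * s (p - 1) : ℕ) : ℝ))) :=
            mul_le_mul_of_nonneg_right (le_abs_self K) h7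
        _ ≤ |K| * (S.card * ((P : ℝ) ^ (-a) *
            ((t (p - 1) : ℝ) ^ (-(σ - a)) * (s (p - 1) : ℝ) ^ (-(2 * σ - a))))) :=
            mul_le_mul_of_nonneg_left hpow (abs_nonneg K)
        _ = _ := by ring
  have hsum : ∑ p ∈ Q, ((t (p - 1) : ℝ) ^ (-(σ - a)) * (s (p - 1) : ℝ) ^ (-(2 * σ - a))) ≤ C1 := by
    have h1 := hser (Q.image (fun p => p - 1)) t s (fun m hm => by
      obtain ⟨p, hp, rfl⟩ := Finset.mem_image.1 hm
      rw [hQ, Finset.mem_filter, Finset.mem_Icc] at hp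
      have hp2 := hp.2.1.two_le
      have := hts (p - 1) (by omega)
      exact ⟨this.1, this.2.2⟩)
    rwa [Finset.sum_image (fun x hx y hy hxy => by
      have h1 : x ∈ Q := hx
      have h2 : y ∈ Q := hy
      rw [hQ, Finset.mem_filter, Finset.mem_Icc] at h1 h2
      have hxy' : x - 1 = y - 1 := hxy
      omega)] at h1
  have hcard : ((S.filter (fun n : ℕ => Leh ((n : ℤ) + h).natAbs ∧
        ∃ p, p.Prime ∧ p ∣ ((n : ℤ) + h).natAbs ∧ P < p ∧ p ^ (2 * B) ≤ b ^ k)).card : ℝ) ≤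
      ∑ p ∈ Q, (((F p 1).card : ℝ) + (F p (-1)).card) := by
    have h1 := (Finset.card_le_card hsub).trans Finset.card_biUnion_le
    have h2 : ∑ p ∈ Q, (F p 1 ∪ F p (-1)).card ≤ ∑ p ∈ Q, ((F p 1).card + (F p (-1)).card) :=
      Finset.sum_le_sum fun p _ => Finset.card_union_le _ _
    exact_mod_cast h1.trans h2
  have h8 : ∑ p ∈ Q, (((F p 1).card : ℝ) + (F p (-1)).card) ≤
      ∑ p ∈ Q, (2 * (|K| * S.card * (P : ℝ) ^ (-a))) *
        ((t (p - 1) : ℝ) ^ (-(σ - a)) * (s (p - 1) : ℝ) ^ (-(2 * σ - a))) := by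
    refine Finset.sum_le_sum fun p hp => ?_
    have g1 := hFp p hp 1 (Or.inl rfl)
    have g2 := hFp p hp (-1) (Or.inr rfl)
    refine le_trans (add_le_add g1 g2) (le_of_eq ?_)
    ring
  refine hcard.trans (h8.trans ?_)
  rw [← Finset.mul_sum]
  have hPa : 0 ≤ (P : ℝ) ^ (-a) := Real.rpow_nonneg hP0.le _
  have h9 : 0 ≤ 2 * (|K| * S.card * (P : ℝ) ^ (-a)) :=
    mul_nonneg (by norm_num) (mul_nonneg (mul_nonneg (abs_nonneg K) hS0) hPa)
  refine (mul_le_mul_of_nonneg_left hsum h9).trans ?_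
  have h10 : 0 ≤ (b : ℝ) * S.card * (P : ℝ) ^ (-a) :=
    mul_nonneg (mul_nonneg (Nat.cast_nonneg b) hS0) hPa
  calc 2 * (|K| * S.card * (P : ℝ) ^ (-a)) * C1 =
        2 * |K| * C1 * S.card * (P : ℝ) ^ (-a) := by ring
    _ ≤ 2 * |K| * C1 * S.card * (P : ℝ) ^ (-a) + (b : ℝ) * S.card * (P : ℝ) ^ (-a) := by linarith
    _ = _ := by ring

lemma prod_le (i j : ℕ) (C : ℝ) (hij : i ≤ j)
    (h : ∀ j : ℕ, 1 ≤ j → |∑ p ∈ Nat.primesBelow (2 ^ j + 1), (p : ℝ)⁻¹ - Real.log j| ≤ C)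
    (hi : 1 ≤ i) :
    ∏ p ∈ Pr (2 ^ i) (2 ^ j), (1 - ((1 : ℕ) : ℝ) / p) ≤ Real.exp (2 * C) * (i / j) := by
  have hi0 : (0 : ℝ) < i := by exact_mod_cast hi
  have hj0 : (0 : ℝ) < j := by exact_mod_cast (by omega : 0 < j)
  have h1 : ∏ p ∈ Pr (2 ^ i) (2 ^ j), (1 - ((1 : ℕ) : ℝ) / p) ≤
      Real.exp (-∑ p ∈ Pr (2 ^ i) (2 ^ j), (p : ℝ)⁻¹) := by
    rw [← Finset.sum_neg_distrib, Real.exp_sum]
    apply Finset.prod_le_prod
    · intro p hp
      have hp1 : (1 : ℝ) ≤ p := by exact_mod_cast (mem_Pr.1 hp).1.one_lt.le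
      rw [Nat.cast_one, sub_nonneg, div_le_one (by linarith)]
      exact hp1
    · intro p _
      rw [Nat.cast_one, one_div]
      have := Real.add_one_le_exp (-(p : ℝ)⁻¹)
      linarith
  have h2 : Nat.primesBelow (2 ^ j + 1) = Nat.primesBelow (2 ^ i + 1) ∪ Pr (2 ^ i) (2 ^ j) := by
    ext p
    have h3 : 2 ^ i ≤ 2 ^ j := Nat.pow_le_pow_right (by norm_num) hij
    rw [Finset.mem_union, Nat.mem_primesBelow, Nat.mem_primesBelow, mem_Pr]
    constructor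
    · rintro ⟨a1, a2⟩
      by_cases h4 : p < 2 ^ i + 1
      · exact Or.inl ⟨h4, a2⟩
      · exact Or.inr ⟨a2, by omega, by omega⟩
    · rintro (⟨a1, a2⟩ | ⟨a1, a2, a3⟩)
      · exact ⟨by omega, a2⟩
      · exact ⟨by omega, a1⟩
  have hdis : Disjoint (Nat.primesBelow (2 ^ i + 1)) (Pr (2 ^ i) (2 ^ j)) := by
    rw [Finset.disjoint_left]
    intro p h3 h4
    rw [Nat.mem_primesBelow] at h3
    have := (mem_Pr.1 h4).2.1
    omega
  have h3 := (abs_le.1 (h j (by omega))).1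
  have h4 := (abs_le.1 (h i hi)).2
  rw [h2, Finset.sum_union hdis] at h3
  refine h1.trans ?_
  calc Real.exp (-∑ p ∈ Pr (2 ^ i) (2 ^ j), (p : ℝ)⁻¹) ≤
        Real.exp (2 * C + (Real.log i - Real.log j)) := Real.exp_le_exp.2 (by linarith)
    _ = Real.exp (2 * C) * (i / j) := by
        rw [Real.exp_add, Real.exp_sub, Real.exp_log hi0, Real.exp_log hj0]

open Classical in
theorem rough {b : ℕ} (hb : 2 ≤ b) : ∃ (K₀ L : ℕ) (C : ℝ), 1 ≤ L ∧ 0 < C ∧ ∀ i j : ℕ,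
    K₀ ≤ 2 ^ i → 1 ≤ i → 1 ≤ j → ∀ (k : ℕ) (D : Fin k → Finset ℕ),
      (∀ i, ∀ d ∈ D i, d < b) → (∀ i, 2 ≤ (D i).card) → (2 ^ j) ^ L ≤ b ^ k → ∀ h : ℤ,
      (((Dig b k D).filter (fun n : ℕ => ∀ p : ℕ, p.Prime → 2 ^ i < p → p ≤ 2 ^ j →
        ¬ (p : ℤ) ∣ (n : ℤ) + h)).card : ℝ) ≤ C * (Dig b k D).card * (i / j) := by
  obtain ⟨K₀, L, hL, hs⟩ := Pool.Agent.Q263.SV.sieve hb 1 1 one_pos
  obtain ⟨M, hM, hm⟩ := Pool.Agent.Erdos456.mertens_both
  refine ⟨K₀, L, 2 * Real.exp (2 * M) + 1, hL, by positivity, ?_⟩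
  intro i j hK hi hj k D hD hD2 hz h
  have hi0 : (0 : ℝ) < i := by exact_mod_cast hi
  have hj0 : (0 : ℝ) < j := by exact_mod_cast hj
  obtain ⟨S, hS⟩ : ∃ S, S = Dig b k D := ⟨_, rfl⟩
  have hS0 : (0 : ℝ) ≤ S.card := Nat.cast_nonneg _
  rw [← hS]
  rcases Nat.lt_or_ge j i with hji | hij
  · have h1 : ((S.filter (fun n : ℕ => ∀ p : ℕ, p.Prime → 2 ^ i < p → p ≤ 2 ^ j →
        ¬ (p : ℤ) ∣ (n : ℤ) + h)).card : ℝ) ≤ S.card := by
      exact_mod_cast Finset.card_filter_le _ _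
    have h2 : (1 : ℝ) ≤ i / j := by
      rw [le_div_iff₀ hj0, one_mul]
      exact_mod_cast hji.le
    have h3 : (1 : ℝ) ≤ (2 * Real.exp (2 * M) + 1) * (i / j) := by
      have := Real.exp_pos (2 * M)
      nlinarith
    calc _ ≤ (S.card : ℝ) * 1 := by rw [mul_one]; exact h1
      _ ≤ S.card * ((2 * Real.exp (2 * M) + 1) * (i / j)) := mul_le_mul_of_nonneg_left h3 hS0
      _ = _ := by ring
  have h1 := hs (2 ^ i) hK k D hD hD2 (2 ^ j) hz (fun p => {((-h) % p).toNat})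
    (fun p hp _ _ => by
      have hp0 : (0 : ℤ) < p := by exact_mod_cast hp.pos
      refine ⟨fun r hr => ?_, by simp⟩
      rw [Finset.mem_singleton] at hr
      rw [hr]
      have h2 := Int.emod_nonneg (-h) hp0.ne'
      have h3 := Int.emod_lt_of_pos (-h) hp0
      omega)
  rw [← hS] at h1
  have h2 : S.filter (fun n : ℕ => ∀ p : ℕ, p.Prime → 2 ^ i < p → p ≤ 2 ^ j →
        ¬ (p : ℤ) ∣ (n : ℤ) + h) ⊆
      S.filter (fun m => ∀ p ∈ Pr (2 ^ i) (2 ^ j), m % p ∉ ({((-h) % p).toNat} : Finset ℕ)) := by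
    intro n hn
    rw [Finset.mem_filter] at hn ⊢
    refine ⟨hn.1, fun p hp h3 => ?_⟩
    obtain ⟨g1, g2, g3⟩ := mem_Pr.1 hp
    apply hn.2 p g1 g2 g3
    rw [Finset.mem_singleton] at h3
    have hp0 : (0 : ℤ) < p := by exact_mod_cast g1.pos
    have h4 := Int.emod_nonneg (-h) hp0.ne'
    have h5 : ((n % p : ℕ) : ℤ) = (-h) % p := by
      rw [h3, Int.toNat_of_nonneg h4]
    rw [Int.natCast_mod] at h5
    have h6 := Int.emod_emod_of_dvd
    have h7 : ((n : ℤ) - (-h)) % p = 0 := Int.emod_eq_emod_iff_emod_sub_eq_zero.1 h5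
    have h8 := Int.dvd_of_emod_eq_zero h7
    rwa [sub_neg_eq_add] at h8
  simp only [Finset.card_singleton] at h1
  have h3 := prod_le i j M hij hm hi
  have h4 := (abs_le.1 h1).2
  have h5 : ((S.filter (fun n : ℕ => ∀ p : ℕ, p.Prime → 2 ^ i < p → p ≤ 2 ^ j →
        ¬ (p : ℤ) ∣ (n : ℤ) + h)).card : ℝ) ≤ ((S.filter (fun m => ∀ p ∈ Pr (2 ^ i) (2 ^ j),
          m % p ∉ ({((-h) % p).toNat} : Finset ℕ))).card : ℝ) := by
    exact_mod_cast Finset.card_le_card h2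
  have h6 : (S.card : ℝ) * ∏ p ∈ Pr (2 ^ i) (2 ^ j), (1 - ((1 : ℕ) : ℝ) / p) ≤
      S.card * (Real.exp (2 * M) * (i / j)) := mul_le_mul_of_nonneg_left h3 hS0
  have h7 : 0 ≤ (S.card : ℝ) * (i / j) := mul_nonneg hS0 (by positivity)
  have h8 : ((S.filter (fun m => ∀ p ∈ Pr (2 ^ i) (2 ^ j),
          m % p ∉ ({((-h) % p).toNat} : Finset ℕ))).card : ℝ) ≤
      2 * ((S.card : ℝ) * ∏ p ∈ Pr (2 ^ i) (2 ^ j), (1 - ((1 : ℕ) : ℝ) / p)) := by
    linarith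
  calc _ ≤ 2 * (S.card * (Real.exp (2 * M) * (i / j))) := by linarith
    _ ≤ 2 * (S.card * (Real.exp (2 * M) * (i / j))) + (S.card : ℝ) * (i / j) := by linarith
    _ = _ := by ring

open Classical in
/-- all solutions -/
theorem all {b : ℕ} (hb : 2 ≤ b) : ∃ C : ℝ, 0 < C ∧ ∀ (k : ℕ), 2 ≤ k → ∀ D : Fin k → Finset ℕ,
      (∀ i, ∀ d ∈ D i, d < b) → (∀ i, 2 ≤ (D i).card) → ∀ h : ℤ,
      (((Dig b k D).filter (fun n : ℕ => Leh ((n : ℤ) + h).natAbs)).card : ℝ) ≤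
        C * (Dig b k D).card * Real.log k / k := by
  obtain ⟨B, C1, hB, hC1, hbig⟩ := big hb (1 / 2) (by norm_num) (by norm_num)
  obtain ⟨K₀, L, C2, hL, hC2, hrough⟩ := rough hb
  have hl2 : 0 < Real.log 2 := Real.log_pos (by norm_num)
  obtain ⟨M, hM⟩ : ∃ M : ℝ, M = 2 / Real.log 2 * (2 + Real.log (K₀ + 3) / Real.log 2) := ⟨_, rfl⟩
  have hlK : 0 < Real.log ((K₀ : ℝ) + 3) := Real.log_pos (by
    have : (0 : ℝ) ≤ K₀ := Nat.cast_nonneg _
    linarith)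
  have hM0 : 0 < M := by rw [hM]; positivity
  refine ⟨C1 / Real.log 2 + C2 * (2 * (B * L) * M) + (B * L : ℕ) / Real.log 2, by positivity, ?_⟩
  intro k hk D hD hD2 h
  have hBL : 1 ≤ B * L := Nat.mul_pos hB hL
  have hk0 : (0 : ℝ) < k := by exact_mod_cast (by omega : 0 < k)
  have hk2 : (2 : ℝ) ≤ k := by exact_mod_cast hk
  have hlk : Real.log 2 ≤ Real.log k := Real.log_le_log (by norm_num) hk2
  have hlk0 : 0 < Real.log k := by linarith
  obtain ⟨S, hS⟩ : ∃ S, S = Dig b k D := ⟨_, rfl⟩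
  have hS0 : (0 : ℝ) ≤ S.card := Nat.cast_nonneg _
  rw [← hS]
  have hterm1 : 0 ≤ C1 / Real.log 2 := by positivity
  have hterm2 : 0 ≤ C2 * (2 * ((B : ℝ) * L) * M) := by positivity
  have hterm3 : 0 ≤ ((B * L : ℕ) : ℝ) / Real.log 2 := by positivity
  rcases Nat.lt_or_ge k (B * L) with hkB | hkB
  · have h1 : ((S.filter (fun n : ℕ => Leh ((n : ℤ) + h).natAbs)).card : ℝ) ≤ S.card := by
      exact_mod_cast Finset.card_filter_le _ _
    have h2 : 1 ≤ ((B * L : ℕ) : ℝ) / Real.log 2 * Real.log k / k := by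
      rw [le_div_iff₀ hk0, one_mul, div_mul_eq_mul_div, le_div_iff₀ hl2]
      have h3 : (k : ℝ) ≤ ((B * L : ℕ) : ℝ) := by exact_mod_cast hkB.le
      exact mul_le_mul h3 hlk hl2.le (Nat.cast_nonneg _)
    have h3 : 0 ≤ (C1 / Real.log 2 + C2 * (2 * (B * L) * M)) * Real.log k / k := by positivity
    calc _ ≤ (S.card : ℝ) * 1 := by rw [mul_one]; exact h1
      _ ≤ S.card * (((B * L : ℕ) : ℝ) / Real.log 2 * Real.log k / k +
          (C1 / Real.log 2 + C2 * (2 * (B * L) * M)) * Real.log k / k) :=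
          mul_le_mul_of_nonneg_left (by linarith) hS0
      _ = _ := by ring
  obtain ⟨w, hw⟩ : ∃ w, w = Nat.clog 2 (k + K₀ + 2) := ⟨_, rfl⟩
  obtain ⟨j, hj⟩ : ∃ j, j = k / (B * L) := ⟨_, rfl⟩
  have hw1 : k + K₀ + 2 ≤ 2 ^ w := by rw [hw]; exact Nat.le_pow_clog (by norm_num) _
  have hw0 : 1 ≤ w := by
    by_contra h0
    have : w = 0 := by omega
    rw [this] at hw1
    omega
  have hw2 : 2 ^ (w - 1) < k + K₀ + 2 := by
    rw [hw]
    exact Nat.pow_pred_clog_lt_self (b := 2) (by norm_num) (x := k + K₀ + 2) (by omega)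
  have hj1 : 1 ≤ j := by rw [hj]; exact Nat.div_pos hkB hBL
  have hjk : j * (B * L) ≤ k := by rw [hj]; exact Nat.div_mul_le_self _ _
  have hkj : (k : ℝ) ≤ 2 * (B * L) * j := by
    have h1 : k < (j + 1) * (B * L) := by
      rw [hj]
      exact (Nat.div_lt_iff_lt_mul (by omega)).1 (Nat.lt_succ_self _)
    have h2 : k ≤ 2 * (B * L) * j := by nlinarith
    exact_mod_cast h2
  have hj0 : (0 : ℝ) < j := by exact_mod_cast hj1
  have hpk : ∀ e : ℕ, e ≤ B * L → (2 ^ j) ^ e ≤ b ^ k := by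
    intro e he
    calc (2 ^ j) ^ e = 2 ^ (j * e) := by rw [← pow_mul]
      _ ≤ 2 ^ k := Nat.pow_le_pow_right (by norm_num) ((Nat.mul_le_mul_left _ he).trans hjk)
      _ ≤ b ^ k := Nat.pow_le_pow_left hb k
  -- the two parts
  have hr := hrough (2 * w) j (by
    have : 2 ^ w ≤ 2 ^ (2 * w) := Nat.pow_le_pow_right (by norm_num) (by omega)
    omega) (by omega) hj1 k D hD hD2 (hpk L (Nat.le_mul_of_pos_left _ hB)) h
  have hg := hbig k D hD hD2 h (2 ^ (2 * w)) Nat.one_le_two_pow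
  rw [← hS] at hr hg
  have hsub : S.filter (fun n : ℕ => Leh ((n : ℤ) + h).natAbs) ⊆
      S.filter (fun n : ℕ => ∀ p : ℕ, p.Prime → 2 ^ (2 * w) < p → p ≤ 2 ^ j →
        ¬ (p : ℤ) ∣ (n : ℤ) + h) ∪
      S.filter (fun n : ℕ => Leh ((n : ℤ) + h).natAbs ∧
        ∃ p, p.Prime ∧ p ∣ ((n : ℤ) + h).natAbs ∧ 2 ^ (2 * w) < p ∧ p ^ B ≤ b ^ k) := by
    intro n hn
    rw [Finset.mem_filter] at hn
    rw [Finset.mem_union, Finset.mem_filter, Finset.mem_filter]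
    by_cases h1 : ∃ p : ℕ, p.Prime ∧ 2 ^ (2 * w) < p ∧ p ≤ 2 ^ j ∧ (p : ℤ) ∣ (n : ℤ) + h
    · obtain ⟨p, g1, g2, g3, g4⟩ := h1
      right
      refine ⟨hn.1, hn.2, p, g1, Int.natCast_dvd.1 g4, g2, ?_⟩
      exact (Nat.pow_le_pow_left g3 B).trans (hpk B (Nat.le_mul_of_pos_right _ hL))
    · left
      refine ⟨hn.1, fun p g1 g2 g3 g4 => h1 ⟨p, g1, g2, g3, g4⟩⟩
  have hcard := (Finset.card_le_card hsub).trans (Finset.card_union_le _ _)
  have hcard' : ((S.filter (fun n : ℕ => Leh ((n : ℤ) + h).natAbs)).card : ℝ) ≤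
      ((S.filter (fun n : ℕ => ∀ p : ℕ, p.Prime → 2 ^ (2 * w) < p → p ≤ 2 ^ j →
        ¬ (p : ℤ) ∣ (n : ℤ) + h)).card : ℝ) +
      ((S.filter (fun n : ℕ => Leh ((n : ℤ) + h).natAbs ∧
        ∃ p, p.Prime ∧ p ∣ ((n : ℤ) + h).natAbs ∧ 2 ^ (2 * w) < p ∧ p ^ B ≤ b ^ k)).card : ℝ) := by
    exact_mod_cast hcard
  -- estimates
  have e1 : (((2 ^ (2 * w) : ℕ) : ℝ)) ^ (-(1 / 2 : ℝ)) ≤ 1 / k := by
    have h1 : (((2 ^ (2 * w) : ℕ) : ℝ)) = ((2 : ℝ) ^ w) ^ (2 : ℝ) := by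
      push_cast
      rw [mul_comm 2 w, pow_mul]
      norm_num
    have h2 : (0 : ℝ) < (2 : ℝ) ^ w := by positivity
    rw [h1, ← Real.rpow_mul h2.le]
    have h3 : (2 : ℝ) * (-(1 / 2)) = -1 := by norm_num
    rw [h3, Real.rpow_neg h2.le, Real.rpow_one, ← one_div]
    apply one_div_le_one_div_of_le hk0
    have : k ≤ 2 ^ w := by omega
    exact_mod_cast this
  have e2 : ((2 * w : ℕ) : ℝ) ≤ M * Real.log k := by
    have h1 : ((w - 1 : ℕ) : ℝ) * Real.log 2 ≤ Real.log k + Real.log (K₀ + 3) := by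
      rw [← Real.log_pow, ← Real.log_mul hk0.ne' (by positivity)]
      apply Real.log_le_log (by positivity)
      have h2 : 2 ^ (w - 1) ≤ k * (K₀ + 3) := by nlinarith
      exact_mod_cast h2
    have h2 : ((w - 1 : ℕ) : ℝ) = (w : ℝ) - 1 := by
      rw [Nat.cast_sub hw0, Nat.cast_one]
    rw [h2] at h1
    have h3 : (w : ℝ) * Real.log 2 ≤ 2 * Real.log k + Real.log (K₀ + 3) := by linarith
    have h4 : Real.log (K₀ + 3) ≤ Real.log (K₀ + 3) / Real.log 2 * Real.log k := by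
      rw [div_mul_eq_mul_div, le_div_iff₀ hl2]
      exact mul_le_mul_of_nonneg_left hlk hlK.le
    have h5 : (w : ℝ) ≤ (2 * Real.log k + Real.log (K₀ + 3) / Real.log 2 * Real.log k) / Real.log 2 := by
      rw [le_div_iff₀ hl2]
      linarith
    push_cast
    calc 2 * (w : ℝ) ≤ 2 * ((2 * Real.log k + Real.log (K₀ + 3) / Real.log 2 * Real.log k) / Real.log 2) := by
          linarith
      _ = M * Real.log k := by rw [hM]; ring
  have e3 : ((2 * w : ℕ) : ℝ) / j ≤ 2 * (B * L) * M * Real.log k / k := by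
    rw [div_le_div_iff₀ hj0 hk0]
    calc ((2 * w : ℕ) : ℝ) * k ≤ (M * Real.log k) * (2 * (B * L) * j) :=
          mul_le_mul e2 hkj hk0.le (by positivity)
      _ = _ := by ring
  have e4 : (1 : ℝ) / k ≤ Real.log k / Real.log 2 / k := by
    apply div_le_div_of_nonneg_right _ hk0.le
    rw [le_div_iff₀ hl2, one_mul]
    exact hlk
  have f1 : C2 * S.card * (((2 * w : ℕ) : ℝ) / j) ≤ C2 * S.card * (2 * (B * L) * M * Real.log k / k) :=
    mul_le_mul_of_nonneg_left e3 (mul_nonneg hC2.le hS0)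
  have f2 : C1 * S.card * (((2 ^ (2 * w) : ℕ) : ℝ)) ^ (-(1 / 2 : ℝ)) ≤
      C1 * S.card * (Real.log k / Real.log 2 / k) :=
    mul_le_mul_of_nonneg_left (e1.trans e4) (mul_nonneg hC1.le hS0)
  have f3 : 0 ≤ (S.card : ℝ) * (((B * L : ℕ) : ℝ) / Real.log 2 * Real.log k / k) :=
    mul_nonneg hS0 (by positivity)
  calc ((S.filter (fun n : ℕ => Leh ((n : ℤ) + h).natAbs)).card : ℝ) ≤
        C2 * S.card * (2 * (B * L) * M * Real.log k / k) +
          C1 * S.card * (Real.log k / Real.log 2 / k) := by linarith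
    _ ≤ C2 * S.card * (2 * (B * L) * M * Real.log k / k) +
          C1 * S.card * (Real.log k / Real.log 2 / k) +
          (S.card : ℝ) * (((B * L : ℕ) : ℝ) / Real.log 2 * Real.log k / k) := by linarith
    _ = _ := by ring

end Pool.Agent.Q263.LT
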