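import Mathlib
import Pool.Agent.Q263.LT.Div

/-!
Composite solutions of `φ(N) ∣ N - a(N)` in shifted sets of integers with restricted digits:
a power saving.
-/

set_option autoImplicit false

open Finset

namespace Pool.Agent.Q263.LT

open Pool.Agent.Q263.MD (Dig)
open Pool.Agent.Q263.SV (Pr mem_Pr)
open Pool.Agent.H95R2.Leh (Leh)

/-- small values of `n + h` -/
lemma small_count (S : Finset ℕ) (h : ℤ) (Y : ℕ) :
    (S.filter (fun n : ℕ => ((n : ℤ) + h).natAbs ≤ Y)).card ≤ 2 * Y + 1 := by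
  have h1 : (S.filter (fun n : ℕ => ((n : ℤ) + h).natAbs ≤ Y)).card ≤
      (Finset.Icc (-(Y : ℤ) - h) ((Y : ℤ) - h)).card := by
    apply Finset.card_le_card_of_injOn (fun n : ℕ => (n : ℤ))
    · intro n hn
      have hn' : n ∈ S.filter (fun n : ℕ => ((n : ℤ) + h).natAbs ≤ Y) := hn
      rw [Finset.mem_filter] at hn'
      have h2 := hn'.2
      simp only [Finset.coe_Icc, Set.mem_Icc]
      omega
    · intro x _ y _ hxy
      have hxy' : (x : ℤ) = y := hxy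
      exact_mod_cast hxy'
  refine h1.trans ?_
  rw [Int.card_Icc]
  omega

open Classical in
/-- solutions with few prime factors -/
theorem power {b : ℕ} (hb : 2 ≤ b) : ∃ (L : ℕ) (C : ℝ), 1 ≤ L ∧ 0 < C ∧
    ∀ (k : ℕ) (D : Fin k → Finset ℕ), (∀ i, ∀ d ∈ D i, d < b) → (∀ i, 2 ≤ (D i).card) → ∀ h : ℤ,
      (((Dig b k D).filter (fun n : ℕ => Leh ((n : ℤ) + h).natAbs ∧
        ((n : ℤ) + h).natAbs.primeFactors.card ≤ 4 ^ (k / L))).card : ℝ) ≤
        C * (Dig b k D).card / 2 ^ (k / L) := by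
  obtain ⟨B, C1, hB, hC1, hbig⟩ := bigd hb (1 / 2) (by norm_num) (by norm_num)
  have hb0 : (0 : ℝ) < b := by exact_mod_cast (by omega : 0 < b)
  refine ⟨8 * B, C1 + 3 * b + 2 * b, by omega, by positivity, ?_⟩
  intro k D hD hD2 h
  obtain ⟨i, hi⟩ : ∃ i, i = k / (8 * B) := ⟨_, rfl⟩
  rw [← hi]
  have hik : 8 * B * i ≤ k := by rw [hi]; exact Nat.mul_div_le k (8 * B)
  have hSge := Pool.Agent.Q263.MD.Dig_ge D hD hD2
  obtain ⟨S, hS⟩ : ∃ S, S = Dig b k D := ⟨_, rfl⟩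
  rw [← hS] at hSge ⊢
  have hS0 : (0 : ℝ) ≤ S.card := Nat.cast_nonneg _
  have h2i : (0 : ℝ) < 2 ^ i := by positivity
  have h2i1 : (1 : ℝ) ≤ 2 ^ i := one_le_pow₀ (by norm_num)
  rcases Nat.lt_or_ge (2 * b) (4 ^ i) with hbi | hbi
  swap
  · -- small `i`
    have h1 : ((S.filter (fun n : ℕ => Leh ((n : ℤ) + h).natAbs ∧
        ((n : ℤ) + h).natAbs.primeFactors.card ≤ 4 ^ i)).card : ℝ) ≤ S.card := by
      exact_mod_cast Finset.card_filter_le _ _
    refine h1.trans ?_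
    rw [le_div_iff₀ h2i]
    have h2 : (2 : ℝ) ^ i ≤ 2 * b := by
      have h3 : 2 ^ i ≤ 2 * b := (Nat.pow_le_pow_left (by norm_num) i).trans hbi
      exact_mod_cast h3
    calc (S.card : ℝ) * 2 ^ i ≤ S.card * (2 * b) := mul_le_mul_of_nonneg_left h2 hS0
      _ ≤ S.card * (2 * b) + (C1 + 3 * b) * S.card := by
          have : 0 ≤ (C1 + 3 * b) * (S.card : ℝ) := by positivity
          linarith
      _ = _ := by ring
  obtain ⟨y, hy⟩ : ∃ y : ℕ, y = 16 ^ i := ⟨_, rfl⟩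
  have hy1 : 1 ≤ y := by rw [hy]; exact Nat.one_le_pow _ _ (by norm_num)
  have hH : (b * y + 1) * 4 ^ i < y ^ 2 := by
    have e1 : y ^ 2 = 4 ^ i * y * 4 ^ i := by
      rw [hy, sq, show (16 : ℕ) = 4 * 4 by norm_num, mul_pow]
      ring
    rw [e1]
    apply Nat.mul_lt_mul_of_pos_right _ (by positivity)
    calc b * y + 1 ≤ 2 * b * y := by nlinarith
      _ < 4 ^ i * y := Nat.mul_lt_mul_of_pos_right hbi hy1
  have hsub : S.filter (fun n : ℕ => Leh ((n : ℤ) + h).natAbs ∧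
        ((n : ℤ) + h).natAbs.primeFactors.card ≤ 4 ^ i) ⊆
      S.filter (fun n : ℕ => Leh ((n : ℤ) + h).natAbs ∧
        ∃ d, d ∣ ((n : ℤ) + h).natAbs ∧ d.Coprime b ∧ y < d ∧ d ^ B ≤ b ^ k) ∪
      S.filter (fun n : ℕ => ((n : ℤ) + h).natAbs ≤ b * y) := by
    intro n hn
    rw [Finset.mem_filter] at hn
    obtain ⟨hnS, hL, hom⟩ := hn
    rw [Finset.mem_union, Finset.mem_filter, Finset.mem_filter]
    by_cases hd : ∀ d, d ∣ ((n : ℤ) + h).natAbs → d.Coprime b → y < d → y ^ 2 < d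
    · right
      exact ⟨hnS, alt b y _ (4 ^ i) hb hy1 hL hd hom hH⟩
    · left
      push Not at hd
      obtain ⟨d, h1, h2, h3, h4⟩ := hd
      refine ⟨hnS, hL, d, h1, h2, h3, ?_⟩
      calc d ^ B ≤ (y ^ 2) ^ B := Nat.pow_le_pow_left h4 B
        _ = 2 ^ (8 * B * i) := by
            rw [hy, show (16 : ℕ) = 2 ^ 4 by norm_num, ← pow_mul, ← pow_mul, ← pow_mul]
            congr 1
            ring
        _ ≤ 2 ^ k := Nat.pow_le_pow_right (by norm_num) hik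
        _ ≤ b ^ k := Nat.pow_le_pow_left hb k
  have hcard := (Finset.card_le_card hsub).trans (Finset.card_union_le _ _)
  have hcard' : ((S.filter (fun n : ℕ => Leh ((n : ℤ) + h).natAbs ∧
        ((n : ℤ) + h).natAbs.primeFactors.card ≤ 4 ^ i)).card : ℝ) ≤
      ((S.filter (fun n : ℕ => Leh ((n : ℤ) + h).natAbs ∧
        ∃ d, d ∣ ((n : ℤ) + h).natAbs ∧ d.Coprime b ∧ y < d ∧ d ^ B ≤ b ^ k)).card : ℝ) +
      ((S.filter (fun n : ℕ => ((n : ℤ) + h).natAbs ≤ b * y)).card : ℝ) := by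
    exact_mod_cast hcard
  have hg := hbig k D hD hD2 h y hy1
  rw [← hS] at hg
  have hyr : (y : ℝ) ^ (-(1 / 2 : ℝ)) ≤ 1 / 2 ^ i := by
    have e1 : (y : ℝ) = ((4 : ℝ) ^ i) ^ (2 : ℝ) := by
      rw [hy]
      push_cast
      rw [show (16 : ℝ) = 4 * 4 by norm_num, mul_pow]
      norm_num
      ring
    have h4 : (0 : ℝ) < (4 : ℝ) ^ i := by positivity
    rw [e1, ← Real.rpow_mul h4.le, show (2 : ℝ) * (-(1 / 2)) = -1 by norm_num,
      Real.rpow_neg h4.le, Real.rpow_one, ← one_div]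
    exact one_div_le_one_div_of_le h2i (pow_le_pow_left₀ (by norm_num) (by norm_num) i)
  have hsm : ((S.filter (fun n : ℕ => ((n : ℤ) + h).natAbs ≤ b * y)).card : ℝ) ≤
      3 * b * S.card / 2 ^ i := by
    have h1 := small_count S h (b * y)
    have h2 : y * 2 ^ i ≤ S.card := by
      refine le_trans ?_ hSge
      rw [hy, show (16 : ℕ) = 2 ^ 4 by norm_num, ← pow_mul, ← pow_add]
      apply Nat.pow_le_pow_right (by norm_num)
      have : 1 * i ≤ B * i := Nat.mul_le_mul_right i hB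
      nlinarith
    have h3 : (S.filter (fun n : ℕ => ((n : ℤ) + h).natAbs ≤ b * y)).card ≤ 3 * b * y := by
      refine h1.trans ?_
      nlinarith
    rw [le_div_iff₀ h2i]
    have h4 : (S.filter (fun n : ℕ => ((n : ℤ) + h).natAbs ≤ b * y)).card * 2 ^ i ≤
        3 * b * S.card := by
      calc _ ≤ 3 * b * y * 2 ^ i := Nat.mul_le_mul_right _ h3
        _ = 3 * b * (y * 2 ^ i) := by ring
        _ ≤ _ := Nat.mul_le_mul_left _ h2
    exact_mod_cast h4
  have hg2 : C1 * S.card * (y : ℝ) ^ (-(1 / 2 : ℝ)) ≤ C1 * S.card * (1 / 2 ^ i) :=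
    mul_le_mul_of_nonneg_left hyr (mul_nonneg hC1.le hS0)
  have h0 : 0 ≤ 2 * (b : ℝ) * S.card / 2 ^ i := by positivity
  calc _ ≤ C1 * S.card * (1 / 2 ^ i) + 3 * b * S.card / 2 ^ i :=
        hcard'.trans (add_le_add (hg.trans hg2) hsm)
    _ ≤ C1 * S.card * (1 / 2 ^ i) + 3 * b * S.card / 2 ^ i + 2 * (b : ℝ) * S.card / 2 ^ i := by
        linarith
    _ = _ := by ring

open Classical in
/-- all solutions, for shifts of doubly exponential size -/
theorem power1 {b : ℕ} (hb : 2 ≤ b) : ∃ (L : ℕ) (C : ℝ), 1 ≤ L ∧ 0 < C ∧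
    ∀ (k : ℕ) (D : Fin k → Finset ℕ), (∀ i, ∀ d ∈ D i, d < b) → (∀ i, 2 ≤ (D i).card) → ∀ h : ℤ,
      (((Dig b k D).filter (fun n : ℕ => Leh ((n : ℤ) + h).natAbs ∧
        (h.natAbs ≤ 2 ^ 2 ^ (k / L) ∨
          ((n : ℤ) + h).natAbs.primeFactors.card ≤ 2 ^ (k / L)))).card : ℝ) ≤
        C * (Dig b k D).card / 2 ^ (k / L) := by
  obtain ⟨L, C, hL, hC, hmain⟩ := power hb
  refine ⟨L, C + (b * L + 1), hL, by positivity, ?_⟩
  intro k D hD hD2 h
  have hm := hmain k D hD hD2 h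
  obtain ⟨i, hi⟩ : ∃ i, i = k / L := ⟨_, rfl⟩
  rw [← hi] at hm ⊢
  have hki : k < L * (i + 1) := by
    rw [hi]
    exact Nat.lt_mul_div_succ k (by omega)
  have hSle := Pool.Agent.Q263.MD.Dig_le (b := b) D
  have hDr : ∀ n ∈ Dig b k D, n < b ^ k := by
    intro n hn
    unfold Pool.Agent.Q263.MD.Dig at hn
    rw [Finset.mem_filter, Finset.mem_range] at hn
    exact hn.1
  obtain ⟨S, hS⟩ : ∃ S, S = Dig b k D := ⟨_, rfl⟩
  rw [← hS] at hm hDr ⊢
  have hS0 : (0 : ℝ) ≤ S.card := Nat.cast_nonneg _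
  have h2i : (0 : ℝ) < 2 ^ i := by positivity
  rcases Nat.lt_or_ge (2 ^ i) (b * L + 1) with hbi | hbi
  · have h1 : ((S.filter (fun n : ℕ => Leh ((n : ℤ) + h).natAbs ∧
        (h.natAbs ≤ 2 ^ 2 ^ i ∨ ((n : ℤ) + h).natAbs.primeFactors.card ≤ 2 ^ i))).card : ℝ) ≤
        S.card := by
      exact_mod_cast Finset.card_filter_le _ _
    refine h1.trans ?_
    rw [le_div_iff₀ h2i]
    have h2 : (2 : ℝ) ^ i ≤ b * L + 1 := by exact_mod_cast hbi.le
    calc (S.card : ℝ) * 2 ^ i ≤ S.card * (b * L + 1) := mul_le_mul_of_nonneg_left h2 hS0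
      _ ≤ S.card * (b * L + 1) + C * S.card := by
          have : 0 ≤ C * (S.card : ℝ) := by positivity
          linarith
      _ = _ := by ring
  have h24 : 2 ^ i ≤ 4 ^ i := Nat.pow_le_pow_left (by norm_num) i
  have hbL : 1 ≤ b * L := Nat.mul_pos (by omega) hL
  have e4 : 4 ^ i = 2 ^ i * 2 ^ i := by
    rw [← mul_pow]
    norm_num
  have hsub : S.filter (fun n : ℕ => Leh ((n : ℤ) + h).natAbs ∧
        (h.natAbs ≤ 2 ^ 2 ^ i ∨ ((n : ℤ) + h).natAbs.primeFactors.card ≤ 2 ^ i)) ⊆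
      S.filter (fun n : ℕ => Leh ((n : ℤ) + h).natAbs ∧
        ((n : ℤ) + h).natAbs.primeFactors.card ≤ 4 ^ i) := by
    intro n hn
    rw [Finset.mem_filter] at hn ⊢
    obtain ⟨hnS, hLe, hc⟩ := hn
    refine ⟨hnS, hLe, ?_⟩
    rcases hc with hc | hc
    · have h1 : ((n : ℤ) + h).natAbs ≤ n + h.natAbs := by omega
      have h2 := hDr n hnS
      have h3 : b ^ k ≤ 2 ^ (b * k) := by
        rw [pow_mul]
        exact Nat.pow_le_pow_left (Nat.lt_two_pow_self (n := b)).le k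
      have h4 : b * k ≤ 4 ^ i - 1 := by
        have h5 : i + 1 ≤ 2 ^ i := Nat.lt_two_pow_self (n := i)
        have h6 : b * k ≤ b * (L * (i + 1)) := Nat.mul_le_mul_left b hki.le
        have h7 : b * (L * (i + 1)) ≤ b * L * 2 ^ i := by
          rw [← mul_assoc]
          exact Nat.mul_le_mul_left _ h5
        have h8 : b * L * 2 ^ i + 1 ≤ 4 ^ i := by
          rw [e4]
          nlinarith
        omega
      have h5 : 2 ^ i ≤ 4 ^ i - 1 := by
        have : 2 ^ i + 1 ≤ 4 ^ i := by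
          rw [e4]
          nlinarith
        omega
      have h6 : 2 ^ (b * k) ≤ 2 ^ (4 ^ i - 1) := Nat.pow_le_pow_right (by norm_num) h4
      have h7 : 2 ^ 2 ^ i ≤ 2 ^ (4 ^ i - 1) := Nat.pow_le_pow_right (by norm_num) h5
      have h8 : 2 ^ 4 ^ i = 2 * 2 ^ (4 ^ i - 1) := by
        have h9 : 4 ^ i = (4 ^ i - 1) + 1 := by
          have : 1 ≤ 4 ^ i := Nat.one_le_pow _ _ (by norm_num)
          omega
        conv_lhs => rw [h9, pow_succ]
        ring
      have h9 : ((n : ℤ) + h).natAbs ≤ 2 ^ 4 ^ i := by omega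
      have h10 : 2 ^ ((n : ℤ) + h).natAbs.primeFactors.card ≤ ((n : ℤ) + h).natAbs := by
        have hN0 : 0 < ((n : ℤ) + h).natAbs := by have := hLe.1; omega
        calc 2 ^ ((n : ℤ) + h).natAbs.primeFactors.card ≤
              ∏ p ∈ ((n : ℤ) + h).natAbs.primeFactors, p :=
              Finset.pow_card_le_prod _ _ _ fun p hp => (Nat.prime_of_mem_primeFactors hp).two_le
          _ ≤ _ := Nat.le_of_dvd hN0 (Nat.prod_primeFactors_dvd _)
      exact (Nat.pow_le_pow_iff_right (by norm_num)).1 (h10.trans h9)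
    · exact hc.trans h24
  have h1 : ((S.filter (fun n : ℕ => Leh ((n : ℤ) + h).natAbs ∧
        (h.natAbs ≤ 2 ^ 2 ^ i ∨ ((n : ℤ) + h).natAbs.primeFactors.card ≤ 2 ^ i))).card : ℝ) ≤
      ((S.filter (fun n : ℕ => Leh ((n : ℤ) + h).natAbs ∧
        ((n : ℤ) + h).natAbs.primeFactors.card ≤ 4 ^ i)).card : ℝ) := by
    exact_mod_cast Finset.card_le_card hsub
  refine (h1.trans hm).trans ?_
  apply div_le_div_of_nonneg_right _ h2i.le
  apply mul_le_mul_of_nonneg_right _ hS0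
  have : (0 : ℝ) ≤ (b : ℝ) * L := by positivity
  linarith

end Pool.Agent.Q263.LT
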