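import Mathlib
import Pool.Agent.Q263.LT.Pow

/-!
Giuga numbers of the form `|n + h|`, `n` an integer with restricted digits: a power saving.
-/

set_option autoImplicit false

open Finset

namespace Pool.Agent.Q263.LT

open Pool.Agent.Q263.MD (Dig)

/-- (weak) Giuga numbers -/
def Giu (N : ℕ) : Prop := 1 < N ∧ ¬ N.Prime ∧ ∀ p : ℕ, p.Prime → p ∣ N → p ∣ N / p - 1

lemma giu_sqf {N : ℕ} (h : Giu N) : Squarefree N := by
  have h1 : 1 < N := h.1
  rw [Nat.squarefree_iff_prime_squarefree]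
  intro p hp hpp
  have h2 : p ∣ N := (Dvd.intro _ rfl).trans hpp
  have h3 := h.2.2 p hp h2
  obtain ⟨t, ht⟩ := hpp
  have h4 : N / p = p * t := by
    rw [ht, mul_assoc, Nat.mul_div_cancel_left _ hp.pos]
  have ht0 : 0 < p * t := by
    rcases Nat.eq_zero_or_pos (p * t) with h | h
    · rw [ht, mul_assoc, h] at h1
      omega
    · exact h
  rw [h4] at h3
  have h5 := Nat.dvd_sub (Dvd.intro t rfl) h3
  rw [show p * t - (p * t - 1) = 1 by omega] at h5
  exact hp.one_lt.ne' (Nat.dvd_one.1 h5)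

/-- `N ≡ p` modulo `p ^ 2` -/
lemma giu_sq {N p : ℕ} (h : Giu N) (hp : p.Prime) (hpN : p ∣ N) : ((p : ℤ) ^ 2) ∣ (N : ℤ) - p := by
  have h3 := h.2.2 p hp hpN
  obtain ⟨m, hm⟩ := hpN
  have hm0 : 0 < m := by
    rcases Nat.eq_zero_or_pos m with h0 | h0
    · have := h.1
      rw [hm, h0] at this
      omega
    · exact h0
  rw [hm, Nat.mul_div_cancel_left _ hp.pos] at h3
  obtain ⟨t, ht⟩ := h3
  have h4 : (m : ℤ) = p * t + 1 := by
    have : m = p * t + 1 := by omega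
    exact_mod_cast this
  refine ⟨t, ?_⟩
  rw [hm]
  push_cast
  rw [h4]
  ring

lemma pairG {n n' : ℕ} {h : ℤ} {d : ℕ} (hd : Squarefree d)
    (e : ℤ) (he : e = 1 ∨ e = -1)
    (h1 : Giu ((n : ℤ) + h).natAbs ∧ d ∣ ((n : ℤ) + h).natAbs ∧
      (((n : ℤ) + h).natAbs : ℤ) = e * ((n : ℤ) + h))
    (h2 : Giu ((n' : ℤ) + h).natAbs ∧ d ∣ ((n' : ℤ) + h).natAbs ∧
      (((n' : ℤ) + h).natAbs : ℤ) = e * ((n' : ℤ) + h)) : n ≡ n' [MOD d ^ 2] := by
  have key : ∀ p ∈ d.primeFactors, (p : ℤ) ^ 2 ∣ (n' : ℤ) - n := by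
    intro p hp
    have hpp := Nat.prime_of_mem_primeFactors hp
    have hpd := Nat.dvd_of_mem_primeFactors hp
    have a1 := giu_sq h1.1 hpp (hpd.trans h1.2.1)
    have a2 := giu_sq h2.1 hpp (hpd.trans h2.2.1)
    rw [h1.2.2] at a1
    rw [h2.2.2] at a2
    have := dvd_sub a2 a1
    have e1 : (e * ((n' : ℤ) + h) - p) - (e * ((n : ℤ) + h) - p) = e * ((n' : ℤ) - n) := by ring
    rw [e1] at this
    rcases he with rfl | rfl
    · simpa using this
    · have h3 := (dvd_neg (a := (p : ℤ) ^ 2)).2 this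
      have e2 : -(-1 * ((n' : ℤ) - n)) = (n' : ℤ) - n := by ring
      rwa [e2] at h3
  rw [Nat.modEq_iff_dvd]
  have h3 : ((d ^ 2 : ℕ) : ℤ) = ∏ p ∈ d.primeFactors, (p : ℤ) ^ 2 := by
    rw [Finset.prod_pow]
    push_cast
    congr 1
    rw [← Nat.cast_prod, Nat.prod_primeFactors_of_squarefree hd]
  rw [h3]
  apply Finset.prod_dvd_of_coprime
  · intro p hp q hq hpq
    have hpp := Nat.prime_of_mem_primeFactors hp
    have hqq := Nat.prime_of_mem_primeFactors hq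
    apply IsCoprime.pow
    exact Nat.isCoprime_iff_coprime.2 ((Nat.coprime_primes hpp hqq).2 hpq)
  · exact key

open Classical in
/-- Giuga numbers with a divisor in `(P, b ^ (k / B)]` -/
theorem bigG {b : ℕ} (hb : 2 ≤ b) (a : ℝ) (ha0 : 0 < a) (ha : a < 1) :
    ∃ (B : ℕ) (C : ℝ), 1 ≤ B ∧ 0 < C ∧ ∀ (k : ℕ) (D : Fin k → Finset ℕ),
      (∀ i, ∀ d ∈ D i, d < b) → (∀ i, 2 ≤ (D i).card) → ∀ (h : ℤ) (P : ℕ), 1 ≤ P →
      (((Dig b k D).filter (fun n : ℕ => Giu ((n : ℤ) + h).natAbs ∧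
        ∃ d, d ∣ ((n : ℤ) + h).natAbs ∧ d.Coprime b ∧ P < d ∧ d ^ B ≤ b ^ k)).card : ℝ) ≤
        C * (Dig b k D).card * (P : ℝ) ^ (-a) := by
  obtain ⟨σ, hσ⟩ : ∃ σ : ℝ, σ = 1 - (1 - a) / 4 := ⟨_, rfl⟩
  obtain ⟨B, K, hB, hequi⟩ := Pool.Agent.Q263.MD.equi hb (1 - σ) (by rw [hσ]; linarith)
  obtain ⟨C1, hC1, hser⟩ := nat_sum (2 * σ - a) (by rw [hσ]; linarith)
  refine ⟨2 * B, 2 * |K| * C1 + 1, by omega, by positivity, ?_⟩
  intro k D hD hD2 h P hP
  have hP0 : (0 : ℝ) < P := by exact_mod_cast hP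
  set S := Dig b k D with hS
  have hS0 : (0 : ℝ) ≤ S.card := Nat.cast_nonneg _
  set Q := (Finset.Icc (P + 1) (b ^ k)).filter (fun d : ℕ => Squarefree d ∧ d.Coprime b ∧
    d ^ (2 * B) ≤ b ^ k) with hQ
  set F : ℕ → ℤ → Finset ℕ := fun p e => S.filter (fun n : ℕ => Giu ((n : ℤ) + h).natAbs ∧
      p ∣ ((n : ℤ) + h).natAbs ∧ (((n : ℤ) + h).natAbs : ℤ) = e * ((n : ℤ) + h)) with hF
  have hsub : (S.filter (fun n : ℕ => Giu ((n : ℤ) + h).natAbs ∧
        ∃ d, d ∣ ((n : ℤ) + h).natAbs ∧ d.Coprime b ∧ P < d ∧ d ^ (2 * B) ≤ b ^ k)) ⊆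
      Q.biUnion (fun p => F p 1 ∪ F p (-1)) := by
    intro n hn
    rw [Finset.mem_filter] at hn
    obtain ⟨hnS, hL, d, hdN, hdb, hPd, hdk⟩ := hn
    rw [Finset.mem_biUnion]
    refine ⟨d, ?_, ?_⟩
    · rw [hQ, Finset.mem_filter, Finset.mem_Icc]
      exact ⟨⟨hPd, (Nat.le_self_pow (by omega) d).trans hdk⟩, (giu_sqf hL).squarefree_of_dvd hdN,
        hdb, hdk⟩
    · rw [Finset.mem_union]
      rcases le_total 0 ((n : ℤ) + h) with h0 | h0
      · left
        rw [hF, Finset.mem_filter]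
        exact ⟨hnS, hL, hdN, by rw [Int.natAbs_of_nonneg h0, one_mul]⟩
      · right
        rw [hF, Finset.mem_filter]
        exact ⟨hnS, hL, hdN, by rw [Int.ofNat_natAbs_of_nonpos h0]; ring⟩
  have hFp : ∀ d ∈ Q, ∀ e : ℤ, (e = 1 ∨ e = -1) → ((F d e).card : ℝ) ≤
      |K| * S.card * ((P : ℝ) ^ (-a) * (d : ℝ) ^ (-(2 * σ - a))) := by
    intro d hd e he
    rw [hQ, Finset.mem_filter, Finset.mem_Icc] at hd
    obtain ⟨⟨hPd, -⟩, hsq, hdb, hdk⟩ := hd
    have hd0 : 0 < d := by omega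
    have hd1 : (0 : ℝ) < d := by exact_mod_cast hd0
    have hpow : ((d ^ 2 : ℕ) : ℝ) ^ (1 - σ) * (S.card / ((d ^ 2 : ℕ) : ℝ)) ≤
        S.card * ((P : ℝ) ^ (-a) * (d : ℝ) ^ (-(2 * σ - a))) := by
      have e1 : ((d ^ 2 : ℕ) : ℝ) = (d : ℝ) ^ (2 : ℝ) := by
        push_cast
        norm_num
      have e2 : ((d : ℝ) ^ (2 : ℝ)) ^ (1 - σ) * (S.card / (d : ℝ) ^ (2 : ℝ)) =
          S.card * (d : ℝ) ^ (-(2 * σ)) := by
        rw [← Real.rpow_mul hd1.le, div_eq_mul_inv, ← Real.rpow_neg hd1.le]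
        have : (d : ℝ) ^ (-(2 * σ)) = (d : ℝ) ^ (2 * (1 - σ)) * (d : ℝ) ^ (-(2 : ℝ)) := by
          rw [← Real.rpow_add hd1]
          congr 1
          ring
        rw [this]
        ring
      rw [e1, e2]
      refine mul_le_mul_of_nonneg_left ?_ hS0
      have e3 : (d : ℝ) ^ (-(2 * σ)) = (d : ℝ) ^ (-a) * (d : ℝ) ^ (-(2 * σ - a)) := by
        rw [← Real.rpow_add hd1]
        congr 1
        ring
      rw [e3]
      apply mul_le_mul_of_nonneg_right _ (by positivity)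
      exact Real.rpow_le_rpow_of_nonpos hP0 (by exact_mod_cast (by omega : P ≤ d)) (by linarith)
    rcases (F d e).eq_empty_or_nonempty with hE | ⟨n0, hn0⟩
    · rw [hE, Finset.card_empty, Nat.cast_zero]
      exact mul_nonneg (mul_nonneg (abs_nonneg K) hS0) (by positivity)
    · rw [hF, Finset.mem_filter] at hn0
      have h5 : F d e ⊆ S.filter (fun n => n ≡ n0 [MOD d ^ 2]) := by
        intro n hn
        rw [hF, Finset.mem_filter] at hn
        rw [Finset.mem_filter]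
        exact ⟨hn.1, pairG hsq e he hn.2 hn0.2⟩
      have hqk : (d ^ 2) ^ B ≤ b ^ k := by
        refine le_trans ?_ hdk
        rw [pow_mul]
      have h6 := hequi (d ^ 2) (Nat.pow_pos hd0) (Nat.Coprime.pow_right 2 hdb.symm) k hqk D hD hD2 n0
      have h7 : 0 ≤ ((d ^ 2 : ℕ) : ℝ) ^ (1 - σ) * (S.card / ((d ^ 2 : ℕ) : ℝ)) :=
        mul_nonneg (Real.rpow_nonneg (Nat.cast_nonneg _) _) (div_nonneg hS0 (Nat.cast_nonneg _))
      calc ((F d e).card : ℝ) ≤ ((S.filter (fun n => n ≡ n0 [MOD d ^ 2])).card : ℝ) := by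
            exact_mod_cast Finset.card_le_card h5
        _ ≤ K * ((d ^ 2 : ℕ) : ℝ) ^ (1 - σ) * (S.card / ((d ^ 2 : ℕ) : ℝ)) := h6
        _ = K * (((d ^ 2 : ℕ) : ℝ) ^ (1 - σ) * (S.card / ((d ^ 2 : ℕ) : ℝ))) := by ring
        _ ≤ |K| * (((d ^ 2 : ℕ) : ℝ) ^ (1 - σ) * (S.card / ((d ^ 2 : ℕ) : ℝ))) :=
            mul_le_mul_of_nonneg_right (le_abs_self K) h7
        _ ≤ |K| * (S.card * ((P : ℝ) ^ (-a) * (d : ℝ) ^ (-(2 * σ - a)))) :=
            mul_le_mul_of_nonneg_left hpow (abs_nonneg K)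
        _ = _ := by ring
  have hsum : ∑ d ∈ Q, (d : ℝ) ^ (-(2 * σ - a)) ≤ C1 := hser Q
  have hcard : ((S.filter (fun n : ℕ => Giu ((n : ℤ) + h).natAbs ∧
        ∃ d, d ∣ ((n : ℤ) + h).natAbs ∧ d.Coprime b ∧ P < d ∧ d ^ (2 * B) ≤ b ^ k)).card : ℝ) ≤
      ∑ p ∈ Q, (((F p 1).card : ℝ) + (F p (-1)).card) := by
    have h1 := (Finset.card_le_card hsub).trans Finset.card_biUnion_le
    have h2 : ∑ p ∈ Q, (F p 1 ∪ F p (-1)).card ≤ ∑ p ∈ Q, ((F p 1).card + (F p (-1)).card) :=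
      Finset.sum_le_sum fun p _ => Finset.card_union_le _ _
    exact_mod_cast h1.trans h2
  have h8 : ∑ p ∈ Q, (((F p 1).card : ℝ) + (F p (-1)).card) ≤
      ∑ d ∈ Q, (2 * (|K| * S.card * (P : ℝ) ^ (-a))) * (d : ℝ) ^ (-(2 * σ - a)) := by
    refine Finset.sum_le_sum fun p hp => ?_
    have g1 := hFp p hp 1 (Or.inl rfl)
    have g2 := hFp p hp (-1) (Or.inr rfl)
    refine le_trans (add_le_add g1 g2) (le_of_eq ?_)
    ring
  refine hcard.trans (h8.trans ?_)
  rw [← Finset.mul_sum]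
  have hPa : 0 ≤ (P : ℝ) ^ (-a) := Real.rpow_nonneg hP0.le _
  have h9 : 0 ≤ 2 * (|K| * S.card * (P : ℝ) ^ (-a)) :=
    mul_nonneg (by norm_num) (mul_nonneg (mul_nonneg (abs_nonneg K) hS0) hPa)
  refine (mul_le_mul_of_nonneg_left hsum h9).trans ?_
  have h10 : 0 ≤ (S.card : ℝ) * (P : ℝ) ^ (-a) := mul_nonneg hS0 hPa
  calc 2 * (|K| * S.card * (P : ℝ) ^ (-a)) * C1 =
        2 * |K| * C1 * S.card * (P : ℝ) ^ (-a) := by ring
    _ ≤ 2 * |K| * C1 * S.card * (P : ℝ) ^ (-a) + (S.card : ℝ) * (P : ℝ) ^ (-a) := by linarith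
    _ = _ := by ring

/-- the splitting of a squarefree integer without divisors in `(y, y ^ 2]` -/
lemma splitN (b y N : ℕ) (hb : 2 ≤ b) (hy : 1 ≤ y) (hsq : Squarefree N)
    (hno : ∀ d, d ∣ N → d.Coprime b → y < d → y ^ 2 < d) :
    ∃ u m : ℕ, u * m = N ∧ u ≤ b * y ∧ ∀ p, p.Prime → p ∣ m → y ^ 2 < p := by
  classical
  have hN0 : 0 < N := Nat.pos_of_ne_zero hsq.ne_zero
  have hprod := Nat.prod_primeFactors_of_squarefree hsq
  obtain ⟨u, hu⟩ : ∃ u, u = ∏ p ∈ N.primeFactors.filter (fun p => p ∣ b ∨ p ≤ y), p := ⟨_, rfl⟩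
  obtain ⟨m, hm⟩ : ∃ m, m = ∏ p ∈ N.primeFactors.filter (fun p => ¬ (p ∣ b ∨ p ≤ y)), p := ⟨_, rfl⟩
  have hum : u * m = N := by
    rw [hu, hm, Finset.prod_filter_mul_prod_filter_not, hprod]
  refine ⟨u, m, hum, ?_, ?_⟩
  · have e1 : u = (∏ p ∈ (N.primeFactors.filter (fun p => p ∣ b ∨ p ≤ y)).filter (fun p => p ∣ b), p) *
        ∏ p ∈ (N.primeFactors.filter (fun p => p ∣ b ∨ p ≤ y)).filter (fun p => ¬ p ∣ b), p := by
      rw [hu, Finset.prod_filter_mul_prod_filter_not]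
    rw [e1]
    refine Nat.mul_le_mul ?_ ?_
    · apply Nat.le_of_dvd (by omega)
      apply Finset.prod_primes_dvd
      · intro p hp
        rw [Finset.mem_filter, Finset.mem_filter] at hp
        exact (Nat.prime_of_mem_primeFactors hp.1.1).prime
      · intro p hp
        rw [Finset.mem_filter] at hp
        exact hp.2
    · by_contra hlt
      push Not at hlt
      obtain ⟨T', h1, h2, h3⟩ := greedy y _ (fun p hp => by
        rw [Finset.mem_filter, Finset.mem_filter] at hp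
        rcases hp.1.2 with h | h
        · exact absurd h hp.2
        · exact h) hlt hy
      have h4 : ∏ p ∈ T', p ∣ N := by
        rw [← hprod]
        apply Finset.prod_dvd_prod_of_subset
        intro p hp
        have := h1 hp
        rw [Finset.mem_filter, Finset.mem_filter] at this
        exact this.1.1
      have h5 : (∏ p ∈ T', p).Coprime b := by
        apply Nat.Coprime.prod_left
        intro p hp
        have := h1 hp
        rw [Finset.mem_filter, Finset.mem_filter] at this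
        exact (Nat.Prime.coprime_iff_not_dvd (Nat.prime_of_mem_primeFactors this.1.1)).2 this.2
      have := hno _ h4 h5 h2
      omega
  · intro p hp hpm
    rw [hm, Prime.dvd_finsetProd_iff hp.prime] at hpm
    obtain ⟨r, hr, hpr⟩ := hpm
    rw [Finset.mem_filter] at hr
    have h1 := Nat.prime_of_mem_primeFactors hr.1
    have h2 := (Nat.prime_dvd_prime_iff_eq hp h1).1 hpr
    rw [← h2] at hr
    push Not at hr
    exact hno p (Nat.dvd_of_mem_primeFactors hr.1) ((Nat.Prime.coprime_iff_not_dvd hp).2 hr.2.1) hr.2.2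

/-- Giuga numbers without divisors in `(y, y ^ 2]` -/
theorem altG (b y N H : ℕ) (hb : 2 ≤ b) (hy : 1 ≤ y) (hG : Giu N)
    (hno : ∀ d, d ∣ N → d.Coprime b → y < d → y ^ 2 < d) (hN : N.primeFactors.card ≤ H)
    (hH : (b * y + 1) * H < y ^ 2) : N ≤ b * y := by
  classical
  by_contra hcon
  push Not at hcon
  have hN1 : 1 < N := hG.1
  have hsq := giu_sqf hG
  obtain ⟨u, m, hum, hu1, hmp⟩ := splitN b y N hb hy hsq hno
  have huN : u ∣ N := ⟨m, hum.symm⟩
  have hmN : m ∣ N := ⟨u, by rw [mul_comm]; exact hum.symm⟩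
  have hu0 : 0 < u := Nat.pos_of_dvd_of_pos huN (by omega)
  have hm0 : 0 < m := Nat.pos_of_dvd_of_pos hmN (by omega)
  have hmu : 1 < m := by
    by_contra h
    have h1 : m = 1 := by omega
    rw [h1, mul_one] at hum
    omega
  have hmr : m.primeFactors.card ≤ H :=
    (Finset.card_le_card (Nat.primeFactors_mono hmN (by omega))).trans hN
  -- `m` divides `u * B - 1`, where `B = ∑ m / p`
  obtain ⟨B, hB⟩ : ∃ B, B = ∑ p ∈ m.primeFactors, m / p := ⟨_, rfl⟩
  have hmsq : Squarefree m := hsq.squarefree_of_dvd hmN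
  have hcopp : ∀ p ∈ m.primeFactors, (p : ℤ) ∣ (u : ℤ) * B - 1 := by
    intro p hp
    have hpp := Nat.prime_of_mem_primeFactors hp
    have hpm := Nat.dvd_of_mem_primeFactors hp
    obtain ⟨q, hq⟩ := hpm
    have h1 : p ∣ N / p - 1 := hG.2.2 p hpp ((Dvd.intro q hq.symm).trans hmN)
    have h2 : N / p = u * q := by
      rw [← hum, hq, show u * (p * q) = p * (u * q) by ring, Nat.mul_div_cancel_left _ hpp.pos]
    have hq0 : 0 < q := by
      rcases Nat.eq_zero_or_pos q with h | h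
      · rw [hq, h] at hm0; omega
      · exact h
    have huq : 1 ≤ u * q := Nat.mul_pos hu0 hq0
    rw [h2] at h1
    have h3 : (p : ℤ) ∣ (u : ℤ) * q - 1 := by
      have h4 : ((u * q - 1 : ℕ) : ℤ) = (u : ℤ) * q - 1 := by
        rw [Nat.cast_sub huq]
        push_cast
        ring
      rw [← h4]
      exact_mod_cast h1
    -- the other summands
    have h5 : p ∣ ∑ r ∈ m.primeFactors.erase p, m / r := by
      apply Finset.dvd_sum
      intro r hr
      rw [Finset.mem_erase] at hr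
      have hrp := Nat.prime_of_mem_primeFactors hr.2
      obtain ⟨t, ht⟩ := Nat.dvd_of_mem_primeFactors hr.2
      have h6 : m / r = t := by rw [ht, Nat.mul_div_cancel_left _ hrp.pos]
      rw [h6]
      have h7 : p ∣ r * t := by rw [← ht, hq]; exact Dvd.intro q rfl
      rcases hpp.dvd_mul.1 h7 with h8 | h8
      · exact absurd ((Nat.prime_dvd_prime_iff_eq hpp hrp).1 h8).symm hr.1
      · exact h8
    have h6 : B = q + ∑ r ∈ m.primeFactors.erase p, m / r := by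
      rw [hB, ← Finset.add_sum_erase _ _ hp]
      congr 1
      rw [hq, Nat.mul_div_cancel_left _ hpp.pos]
    obtain ⟨w, hw⟩ := h5
    rw [hw] at h6
    have h7 : (u : ℤ) * B - 1 = ((u : ℤ) * q - 1) + p * (u * w) := by
      rw [h6]
      push_cast
      ring
    rw [h7]
    exact dvd_add h3 (Dvd.intro _ rfl)
  have hmB : (m : ℤ) ∣ (u : ℤ) * B - 1 := by
    have h1 : (m : ℤ) = ∏ p ∈ m.primeFactors, (p : ℤ) := by
      rw [← Nat.cast_prod, Nat.prod_primeFactors_of_squarefree hmsq]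
    rw [h1]
    apply Finset.prod_dvd_of_coprime
    · intro p hp q hq hpq
      exact Nat.isCoprime_iff_coprime.2 ((Nat.coprime_primes (Nat.prime_of_mem_primeFactors hp)
        (Nat.prime_of_mem_primeFactors hq)).2 hpq)
    · exact hcopp
  -- the size of `B`
  have hBm : B * y ^ 2 ≤ m * H := by
    rw [hB, Finset.sum_mul]
    calc ∑ p ∈ m.primeFactors, m / p * y ^ 2 ≤ ∑ _p ∈ m.primeFactors, m := by
          refine Finset.sum_le_sum fun p hp => ?_
          have h1 := hmp p (Nat.prime_of_mem_primeFactors hp) (Nat.dvd_of_mem_primeFactors hp)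
          calc m / p * y ^ 2 ≤ m / p * p := Nat.mul_le_mul_left _ h1.le
            _ ≤ m := Nat.div_mul_le_self m p
      _ = m.primeFactors.card * m := by rw [Finset.sum_const, smul_eq_mul]
      _ ≤ m * H := by rw [mul_comm]; exact Nat.mul_le_mul_left _ hmr
  have hB1 : 1 ≤ B := by
    obtain ⟨p, hp, hpm⟩ := Nat.exists_prime_and_dvd (show m ≠ 1 by omega)
    have h1 : p ∈ m.primeFactors := Nat.mem_primeFactors.2 ⟨hp, hpm, by omega⟩
    have h2 : 1 ≤ m / p := Nat.div_pos (Nat.le_of_dvd hm0 hpm) hp.pos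
    rw [hB]
    exact h2.trans (Finset.single_le_sum (f := fun r => m / r) (fun _ _ => Nat.zero_le _) h1)
  have huB : 1 ≤ u * B := Nat.mul_pos hu0 hB1
  have hlt : u * B < m := by
    have h1 : u * (B * y ^ 2) ≤ u * (m * H) := Nat.mul_le_mul_left _ hBm
    have h2 : (u + 1) * H < y ^ 2 := lt_of_le_of_lt (Nat.mul_le_mul_right _ (by omega)) hH
    have h3 : u * H ≤ (u + 1) * H := Nat.mul_le_mul_right _ (by omega)
    by_contra h4
    push Not at h4
    have h5 : m * y ^ 2 ≤ u * B * y ^ 2 := Nat.mul_le_mul_right _ h4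
    have h6 : m * (u * H) < m * y ^ 2 := Nat.mul_lt_mul_of_pos_left (by omega) hm0
    nlinarith
  -- so `u * B = 1`
  have h1 : (u : ℤ) * B - 1 = 0 := by
    apply Int.eq_zero_of_abs_lt_dvd hmB
    rw [abs_of_nonneg]
    · have : (u : ℤ) * B < m := by exact_mod_cast hlt
      linarith
    · have : (1 : ℤ) ≤ (u : ℤ) * B := by exact_mod_cast huB
      linarith
  have h2 : u * B = 1 := by
    have : (u : ℤ) * B = 1 := by linarith
    exact_mod_cast this
  have hu' : u = 1 := Nat.eq_one_of_mul_eq_one_right h2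
  have hB' : B = 1 := Nat.eq_one_of_mul_eq_one_left h2
  rw [hu', one_mul] at hum
  -- `N` is a prime
  obtain ⟨p, hp, hpm⟩ := Nat.exists_prime_and_dvd (show m ≠ 1 by omega)
  have h3 : p ∈ m.primeFactors := Nat.mem_primeFactors.2 ⟨hp, hpm, by omega⟩
  have h4 : m / p ≤ 1 := by
    rw [← hB', hB]
    exact Finset.single_le_sum (f := fun r => m / r) (fun _ _ => Nat.zero_le _) h3
  have h5 : 1 ≤ m / p := Nat.div_pos (Nat.le_of_dvd hm0 hpm) hp.pos
  have h6 : m = p := by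
    have h7 : m / p = 1 := by omega
    have h8 := Nat.div_mul_cancel hpm
    rw [h7, one_mul] at h8
    exact h8.symm
  apply hG.2.1
  rw [← hum, h6]
  exact hp

end Pool.Agent.Q263.LT
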