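import Mathlib
import Pool.Agent.Q263.LT.PowQ

/-!
A bound for all shifts.
-/

set_option autoImplicit false

open Finset

namespace Pool.Agent.Q263.LT

open Pool.Agent.Q263.MD (Dig)
open Pool.Agent.Q263.SV (Pr mem_Pr)

open Classical in
/-- all solutions -/
theorem allQ {b : ℕ} (hb : 2 ≤ b) (Q : ℕ → Prop)
    (hbigQ : ∃ (B : ℕ) (C : ℝ), 1 ≤ B ∧ 0 < C ∧ ∀ (k : ℕ) (D : Fin k → Finset ℕ),
      (∀ i, ∀ d ∈ D i, d < b) → (∀ i, 2 ≤ (D i).card) → ∀ (h : ℤ) (P : ℕ), 1 ≤ P →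
      (((Dig b k D).filter (fun n : ℕ => Q ((n : ℤ) + h).natAbs ∧
        ∃ d, d ∣ ((n : ℤ) + h).natAbs ∧ d.Coprime b ∧ P < d ∧ d ^ B ≤ b ^ k)).card : ℝ) ≤
        C * (Dig b k D).card * (P : ℝ) ^ (-(1 / 2 : ℝ))) : ∃ C : ℝ, 0 < C ∧ ∀ (k : ℕ), 2 ≤ k → ∀ D : Fin k → Finset ℕ,
      (∀ i, ∀ d ∈ D i, d < b) → (∀ i, 2 ≤ (D i).card) → ∀ h : ℤ,
      (((Dig b k D).filter (fun n : ℕ => Q ((n : ℤ) + h).natAbs)).card : ℝ) ≤
        C * (Dig b k D).card * Real.log k / k := by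
  obtain ⟨B, C1, hB, hC1, hbig⟩ := hbigQ
  obtain ⟨K₀0, L, C2, hL, hC2, hrough⟩ := rough hb
  obtain ⟨K₀, hK₀⟩ : ∃ K₀, K₀ = K₀0 + b := ⟨_, rfl⟩
  have hl2 : 0 < Real.log 2 := Real.log_pos (by norm_num)
  obtain ⟨M, hM⟩ : ∃ M : ℝ, M = 2 / Real.log 2 * (2 + Real.log (K₀ + 3) / Real.log 2) := ⟨_, rfl⟩
  have hlK : 0 < Real.log ((K₀ : ℝ) + 3) := Real.log_pos (by
    have : (0 : ℝ) ≤ K₀ := Nat.cast_nonneg _
    linarith)
  have hM0 : 0 < M := by rw [hM]; positivity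
  refine ⟨C1 / Real.log 2 + C2 * (2 * (B * L) * M) + (B * L : ℕ) / Real.log 2, by positivity, ?_⟩
  intro k hk D hD hD2 h
  have hBL : 1 ≤ B * L := Nat.mul_pos hB hL
  have hk0 : (0 : ℝ) < k := by exact_mod_cast (by omega : 0 < k)
  have hk2 : (2 : ℝ) ≤ k := by exact_mod_cast hk
  have hlk : Real.log 2 ≤ Real.log k := Real.log_le_log (by norm_num) hk2
  have hlk0 : 0 < Real.log k := by linarith
  obtain ⟨S, hS⟩ : ∃ S, S = Dig b k D := ⟨_, rfl⟩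
  have hS0 : (0 : ℝ) ≤ S.card := Nat.cast_nonneg _
  rw [← hS]
  have hterm1 : 0 ≤ C1 / Real.log 2 := by positivity
  have hterm2 : 0 ≤ C2 * (2 * ((B : ℝ) * L) * M) := by positivity
  have hterm3 : 0 ≤ ((B * L : ℕ) : ℝ) / Real.log 2 := by positivity
  rcases Nat.lt_or_ge k (B * L) with hkB | hkB
  · have h1 : ((S.filter (fun n : ℕ => Q ((n : ℤ) + h).natAbs)).card : ℝ) ≤ S.card := by
      exact_mod_cast Finset.card_filter_le _ _
    have h2 : 1 ≤ ((B * L : ℕ) : ℝ) / Real.log 2 * Real.log k / k := by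
      rw [le_div_iff₀ hk0, one_mul, div_mul_eq_mul_div, le_div_iff₀ hl2]
      have h3 : (k : ℝ) ≤ ((B * L : ℕ) : ℝ) := by exact_mod_cast hkB.le
      exact mul_le_mul h3 hlk hl2.le (Nat.cast_nonneg _)
    have h3 : 0 ≤ (C1 / Real.log 2 + C2 * (2 * (B * L) * M)) * Real.log k / k := by positivity
    calc _ ≤ (S.card : ℝ) * 1 := by rw [mul_one]; exact h1
      _ ≤ S.card * (((B * L : ℕ) : ℝ) / Real.log 2 * Real.log k / k +
          (C1 / Real.log 2 + C2 * (2 * (B * L) * M)) * Real.log k / k) :=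
          mul_le_mul_of_nonneg_left (by linarith) hS0
      _ = _ := by ring
  obtain ⟨w, hw⟩ : ∃ w, w = Nat.clog 2 (k + K₀ + 2) := ⟨_, rfl⟩
  obtain ⟨j, hj⟩ : ∃ j, j = k / (B * L) := ⟨_, rfl⟩
  have hw1 : k + K₀ + 2 ≤ 2 ^ w := by rw [hw]; exact Nat.le_pow_clog (by norm_num) _
  have hw0 : 1 ≤ w := by
    by_contra h0
    have : w = 0 := by omega
    rw [this] at hw1
    omega
  have hw2 : 2 ^ (w - 1) < k + K₀ + 2 := by
    rw [hw]
    exact Nat.pow_pred_clog_lt_self (b := 2) (by norm_num) (x := k + K₀ + 2) (by omega)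
  have hj1 : 1 ≤ j := by rw [hj]; exact Nat.div_pos hkB hBL
  have hjk : j * (B * L) ≤ k := by rw [hj]; exact Nat.div_mul_le_self _ _
  have hkj : (k : ℝ) ≤ 2 * (B * L) * j := by
    have h1 : k < (j + 1) * (B * L) := by
      rw [hj]
      exact (Nat.div_lt_iff_lt_mul (by omega)).1 (Nat.lt_succ_self _)
    have h2 : k ≤ 2 * (B * L) * j := by nlinarith
    exact_mod_cast h2
  have hj0 : (0 : ℝ) < j := by exact_mod_cast hj1
  have hpk : ∀ e : ℕ, e ≤ B * L → (2 ^ j) ^ e ≤ b ^ k := by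
    intro e he
    calc (2 ^ j) ^ e = 2 ^ (j * e) := by rw [← pow_mul]
      _ ≤ 2 ^ k := Nat.pow_le_pow_right (by norm_num) ((Nat.mul_le_mul_left _ he).trans hjk)
      _ ≤ b ^ k := Nat.pow_le_pow_left hb k
  -- the two parts
  have hr := hrough (2 * w) j (by
    have : 2 ^ w ≤ 2 ^ (2 * w) := Nat.pow_le_pow_right (by norm_num) (by omega)
    omega) (by omega) hj1 k D hD hD2 (hpk L (Nat.le_mul_of_pos_left _ hB)) h
  have hg := hbig k D hD hD2 h (2 ^ (2 * w)) Nat.one_le_two_pow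
  rw [← hS] at hr hg
  have hsub : S.filter (fun n : ℕ => Q ((n : ℤ) + h).natAbs) ⊆
      S.filter (fun n : ℕ => ∀ p : ℕ, p.Prime → 2 ^ (2 * w) < p → p ≤ 2 ^ j →
        ¬ (p : ℤ) ∣ (n : ℤ) + h) ∪
      S.filter (fun n : ℕ => Q ((n : ℤ) + h).natAbs ∧
        ∃ d, d ∣ ((n : ℤ) + h).natAbs ∧ d.Coprime b ∧ 2 ^ (2 * w) < d ∧ d ^ B ≤ b ^ k) := by
    intro n hn
    rw [Finset.mem_filter] at hn
    rw [Finset.mem_union, Finset.mem_filter, Finset.mem_filter]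
    by_cases h1 : ∃ p : ℕ, p.Prime ∧ 2 ^ (2 * w) < p ∧ p ≤ 2 ^ j ∧ (p : ℤ) ∣ (n : ℤ) + h
    · obtain ⟨p, g1, g2, g3, g4⟩ := h1
      right
      refine ⟨hn.1, hn.2, p, Int.natCast_dvd.1 g4, ?_, g2, ?_⟩
      · rw [Nat.Prime.coprime_iff_not_dvd g1]
        intro g5
        have g6 := Nat.le_of_dvd (by omega) g5
        have g7 : 2 ^ w ≤ 2 ^ (2 * w) := Nat.pow_le_pow_right (by norm_num) (by omega)
        omega
      exact (Nat.pow_le_pow_left g3 B).trans (hpk B (Nat.le_mul_of_pos_right _ hL))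
    · left
      refine ⟨hn.1, fun p g1 g2 g3 g4 => h1 ⟨p, g1, g2, g3, g4⟩⟩
  have hcard := (Finset.card_le_card hsub).trans (Finset.card_union_le _ _)
  have hcard' : ((S.filter (fun n : ℕ => Q ((n : ℤ) + h).natAbs)).card : ℝ) ≤
      ((S.filter (fun n : ℕ => ∀ p : ℕ, p.Prime → 2 ^ (2 * w) < p → p ≤ 2 ^ j →
        ¬ (p : ℤ) ∣ (n : ℤ) + h)).card : ℝ) +
      ((S.filter (fun n : ℕ => Q ((n : ℤ) + h).natAbs ∧
        ∃ d, d ∣ ((n : ℤ) + h).natAbs ∧ d.Coprime b ∧ 2 ^ (2 * w) < d ∧ d ^ B ≤ b ^ k)).card : ℝ) := by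
    exact_mod_cast hcard
  -- estimates
  have e1 : (((2 ^ (2 * w) : ℕ) : ℝ)) ^ (-(1 / 2 : ℝ)) ≤ 1 / k := by
    have h1 : (((2 ^ (2 * w) : ℕ) : ℝ)) = ((2 : ℝ) ^ w) ^ (2 : ℝ) := by
      push_cast
      rw [mul_comm 2 w, pow_mul]
      norm_num
    have h2 : (0 : ℝ) < (2 : ℝ) ^ w := by positivity
    rw [h1, ← Real.rpow_mul h2.le]
    have h3 : (2 : ℝ) * (-(1 / 2)) = -1 := by norm_num
    rw [h3, Real.rpow_neg h2.le, Real.rpow_one, ← one_div]
    apply one_div_le_one_div_of_le hk0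
    have : k ≤ 2 ^ w := by omega
    exact_mod_cast this
  have e2 : ((2 * w : ℕ) : ℝ) ≤ M * Real.log k := by
    have h1 : ((w - 1 : ℕ) : ℝ) * Real.log 2 ≤ Real.log k + Real.log (K₀ + 3) := by
      rw [← Real.log_pow, ← Real.log_mul hk0.ne' (by positivity)]
      apply Real.log_le_log (by positivity)
      have h2 : 2 ^ (w - 1) ≤ k * (K₀ + 3) := by nlinarith
      exact_mod_cast h2
    have h2 : ((w - 1 : ℕ) : ℝ) = (w : ℝ) - 1 := by
      rw [Nat.cast_sub hw0, Nat.cast_one]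
    rw [h2] at h1
    have h3 : (w : ℝ) * Real.log 2 ≤ 2 * Real.log k + Real.log (K₀ + 3) := by linarith
    have h4 : Real.log (K₀ + 3) ≤ Real.log (K₀ + 3) / Real.log 2 * Real.log k := by
      rw [div_mul_eq_mul_div, le_div_iff₀ hl2]
      exact mul_le_mul_of_nonneg_left hlk hlK.le
    have h5 : (w : ℝ) ≤ (2 * Real.log k + Real.log (K₀ + 3) / Real.log 2 * Real.log k) / Real.log 2 := by
      rw [le_div_iff₀ hl2]
      linarith
    push_cast
    calc 2 * (w : ℝ) ≤ 2 * ((2 * Real.log k + Real.log (K₀ + 3) / Real.log 2 * Real.log k) / Real.log 2) := by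
          linarith
      _ = M * Real.log k := by rw [hM]; ring
  have e3 : ((2 * w : ℕ) : ℝ) / j ≤ 2 * (B * L) * M * Real.log k / k := by
    rw [div_le_div_iff₀ hj0 hk0]
    calc ((2 * w : ℕ) : ℝ) * k ≤ (M * Real.log k) * (2 * (B * L) * j) :=
          mul_le_mul e2 hkj hk0.le (by positivity)
      _ = _ := by ring
  have e4 : (1 : ℝ) / k ≤ Real.log k / Real.log 2 / k := by
    apply div_le_div_of_nonneg_right _ hk0.le
    rw [le_div_iff₀ hl2, one_mul]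
    exact hlk
  have f1 : C2 * S.card * (((2 * w : ℕ) : ℝ) / j) ≤ C2 * S.card * (2 * (B * L) * M * Real.log k / k) :=
    mul_le_mul_of_nonneg_left e3 (mul_nonneg hC2.le hS0)
  have f2 : C1 * S.card * (((2 ^ (2 * w) : ℕ) : ℝ)) ^ (-(1 / 2 : ℝ)) ≤
      C1 * S.card * (Real.log k / Real.log 2 / k) :=
    mul_le_mul_of_nonneg_left (e1.trans e4) (mul_nonneg hC1.le hS0)
  have f3 : 0 ≤ (S.card : ℝ) * (((B * L : ℕ) : ℝ) / Real.log 2 * Real.log k / k) :=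
    mul_nonneg hS0 (by positivity)
  calc ((S.filter (fun n : ℕ => Q ((n : ℤ) + h).natAbs)).card : ℝ) ≤
        C2 * S.card * (2 * (B * L) * M * Real.log k / k) +
          C1 * S.card * (Real.log k / Real.log 2 / k) := by linarith
    _ ≤ C2 * S.card * (2 * (B * L) * M * Real.log k / k) +
          C1 * S.card * (Real.log k / Real.log 2 / k) +
          (S.card : ℝ) * (((B * L : ℕ) : ℝ) / Real.log 2 * Real.log k / k) := by linarith
    _ = _ := by ring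

end Pool.Agent.Q263.LT
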