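import Mathlib
import Pool.Agent.Q263.LT.AllQ

/-!
Solutions of `φ(N) ∣ N + 1` of the form `|n + h|`, `n` an integer with restricted digits.
-/

set_option autoImplicit false

open Finset

namespace Pool.Agent.Q263.LT

open Pool.Agent.Q263.MD (Dig)

/-- solutions of `φ(N) ∣ N + 1` -/
def LehP (N : ℕ) : Prop := 1 < N ∧ Nat.totient N ∣ N + 1

lemma lehP_tot {N d : ℕ} (h : LehP N) (hd : d ∣ N) : d.totient ∣ N + 1 :=
  (Nat.totient_dvd_of_dvd hd).trans h.2

lemma lehP_cop {N : ℕ} (h : LehP N) : N.Coprime N.totient := by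
  rw [Nat.coprime_iff_gcd_eq_one, ← Nat.dvd_one]
  have h2 : Nat.gcd N N.totient ∣ N := Nat.gcd_dvd_left _ _
  have h3 : Nat.gcd N N.totient ∣ N + 1 := (Nat.gcd_dvd_right _ _).trans h.2
  have h4 := (Nat.dvd_sub h3 h2)
  rwa [show N + 1 - N = 1 by omega] at h4

lemma lehP_sqf {N : ℕ} (h : LehP N) : Squarefree N := by
  rw [Nat.squarefree_iff_prime_squarefree]
  intro p hp hpp
  have h2 : p ∣ N := (Dvd.intro _ rfl).trans hpp
  have h3 := lehP_tot h hpp
  have h4 : p ∣ (p * p).totient := by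
    rw [← sq, Nat.totient_prime_pow hp (by norm_num)]
    exact ⟨p - 1, by ring⟩
  have h5 := Nat.dvd_sub (h4.trans h3) h2
  rw [show N + 1 - N = 1 by omega] at h5
  exact hp.one_lt.ne' (Nat.dvd_one.1 h5)

lemma pairP {n n' : ℕ} {h : ℤ} {p s : ℕ} (hps : Nat.Coprime p s) (hs : s ∣ p.totient)
    (e : ℤ) (he : e = 1 ∨ e = -1)
    (h1 : LehP ((n : ℤ) + h).natAbs ∧ p ∣ ((n : ℤ) + h).natAbs ∧
      (((n : ℤ) + h).natAbs : ℤ) = e * ((n : ℤ) + h))
    (h2 : LehP ((n' : ℤ) + h).natAbs ∧ p ∣ ((n' : ℤ) + h).natAbs ∧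
      (((n' : ℤ) + h).natAbs : ℤ) = e * ((n' : ℤ) + h)) : n ≡ n' [MOD p * s] := by
  have key : ∀ m : ℕ, (LehP ((m : ℤ) + h).natAbs ∧ p ∣ ((m : ℤ) + h).natAbs ∧
      (((m : ℤ) + h).natAbs : ℤ) = e * ((m : ℤ) + h)) →
      (p : ℤ) ∣ (m : ℤ) + h ∧ (s : ℤ) ∣ e * ((m : ℤ) + h) + 1 := by
    intro m hm
    obtain ⟨g1, g2, g3⟩ := hm
    refine ⟨Int.natCast_dvd.2 g2, ?_⟩
    have g4 := hs.trans (lehP_tot g1 g2)
    have g5 : ((((m : ℤ) + h).natAbs + 1 : ℕ) : ℤ) = e * ((m : ℤ) + h) + 1 := by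
      rw [Nat.cast_add, g3]
      norm_num
    rw [← g5]
    exact_mod_cast g4
  obtain ⟨a1, a2⟩ := key n h1
  obtain ⟨b1, b2⟩ := key n' h2
  have c1 : (p : ℤ) ∣ (n' : ℤ) - n := by
    have := dvd_sub b1 a1
    have e1 : ((n' : ℤ) + h) - ((n : ℤ) + h) = (n' : ℤ) - n := by ring
    rwa [e1] at this
  have c2 : (s : ℤ) ∣ (n' : ℤ) - n := by
    have := dvd_sub b2 a2
    have e1 : (e * ((n' : ℤ) + h) + 1) - (e * ((n : ℤ) + h) + 1) = e * ((n' : ℤ) - n) := by ring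
    rw [e1] at this
    rcases he with rfl | rfl
    · simpa using this
    · have h3 := (dvd_neg (a := (s : ℤ))).2 this
      have e2 : -(-1 * ((n' : ℤ) - n)) = (n' : ℤ) - n := by ring
      rwa [e2] at h3
  rw [Nat.modEq_iff_dvd]
  push_cast
  exact IsCoprime.mul_dvd (Nat.isCoprime_iff_coprime.2 hps) c1 c2

open Classical in
/-- solutions with a divisor in `(P, b ^ (k / B)]` -/
theorem bigP {b : ℕ} (hb : 2 ≤ b) (a : ℝ) (ha0 : 0 < a) (ha : a < 1) :
    ∃ (B : ℕ) (C : ℝ), 1 ≤ B ∧ 0 < C ∧ ∀ (k : ℕ) (D : Fin k → Finset ℕ),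
      (∀ i, ∀ d ∈ D i, d < b) → (∀ i, 2 ≤ (D i).card) → ∀ (h : ℤ) (P : ℕ), 1 ≤ P →
      (((Dig b k D).filter (fun n : ℕ => LehP ((n : ℤ) + h).natAbs ∧
        ∃ d, d ∣ ((n : ℤ) + h).natAbs ∧ d.Coprime b ∧ P < d ∧ d ^ B ≤ b ^ k)).card : ℝ) ≤
        C * (Dig b k D).card * (P : ℝ) ^ (-a) := by
  obtain ⟨σ, hσ⟩ : ∃ σ : ℝ, σ = 1 - (1 - a) / 4 := ⟨_, rfl⟩
  obtain ⟨B, K, hB, hequi⟩ := Pool.Agent.Q263.MD.equi hb (1 - σ) (by rw [hσ]; linarith)
  obtain ⟨C1, hC1, hser⟩ := series b (σ - a) (2 * σ - a) (by rw [hσ]; linarith)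
    (by rw [hσ]; linarith)
  refine ⟨2 * B, 2 * |K| * Real.exp C1 + 1, by omega, by positivity, ?_⟩
  intro k D hD hD2 h P hP
  have hP0 : (0 : ℝ) < P := by exact_mod_cast hP
  have hP1 : (1 : ℝ) ≤ P := by exact_mod_cast hP
  set S := Dig b k D with hS
  have hS0 : (0 : ℝ) ≤ S.card := Nat.cast_nonneg _
  -- the splitting of `p - 1`
  have hsp : ∀ m : ℕ, ∃ t s : ℕ, 1 ≤ m → m = t * s ∧ s.Coprime b ∧
      t ∈ Nat.factoredNumbers b.primeFactors := by
    intro m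
    by_cases hm : 1 ≤ m
    · obtain ⟨t, s, h1⟩ := split b (by omega) m hm
      exact ⟨t, s, fun _ => h1⟩
    · exact ⟨0, 0, fun h => absurd h hm⟩
  choose t s hts using hsp
  obtain ⟨g, hg⟩ : ∃ g : ℕ → ℝ, g = fun p => (t (p - 1) : ℝ) ^ (-(σ - a)) *
    (s (p - 1) : ℝ) ^ (-(2 * σ - a)) := ⟨_, rfl⟩
  have hg0 : ∀ p, 0 ≤ g p := fun p => by rw [hg]; positivity
  have hgsum : ∀ A : Finset ℕ, (∀ p ∈ A, p.Prime) → ∑ p ∈ A, g p ≤ C1 := by
    intro A hA
    have h1 := hser (A.image (fun p => p - 1)) t s (fun m hm => by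
      obtain ⟨p, hp, rfl⟩ := Finset.mem_image.1 hm
      have hp2 := (hA p hp).two_le
      have := hts (p - 1) (by omega)
      exact ⟨this.1, this.2.2⟩)
    rw [Finset.sum_image (fun x hx y hy hxy => by
      have h1 := (hA x hx).two_le
      have h2 := (hA y hy).two_le
      have hxy' : x - 1 = y - 1 := hxy
      omega)] at h1
    rw [hg]
    exact h1
  set Q := (Finset.Icc (P + 1) (b ^ k)).filter (fun d : ℕ => Squarefree d ∧ d.Coprime b ∧
    d.Coprime d.totient ∧ d ^ (2 * B) ≤ b ^ k) with hQ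
  set F : ℕ → ℤ → Finset ℕ := fun p e => S.filter (fun n : ℕ => LehP ((n : ℤ) + h).natAbs ∧
      p ∣ ((n : ℤ) + h).natAbs ∧ (((n : ℤ) + h).natAbs : ℤ) = e * ((n : ℤ) + h)) with hF
  have hsub : (S.filter (fun n : ℕ => LehP ((n : ℤ) + h).natAbs ∧
        ∃ d, d ∣ ((n : ℤ) + h).natAbs ∧ d.Coprime b ∧ P < d ∧ d ^ (2 * B) ≤ b ^ k)) ⊆
      Q.biUnion (fun p => F p 1 ∪ F p (-1)) := by
    intro n hn
    rw [Finset.mem_filter] at hn
    obtain ⟨hnS, hL, d, hdN, hdb, hPd, hdk⟩ := hn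
    rw [Finset.mem_biUnion]
    refine ⟨d, ?_, ?_⟩
    · rw [hQ, Finset.mem_filter, Finset.mem_Icc]
      refine ⟨⟨hPd, (Nat.le_self_pow (by omega) d).trans hdk⟩, (lehP_sqf hL).squarefree_of_dvd hdN,
        hdb, ?_, hdk⟩
      exact ((lehP_cop hL).coprime_dvd_left hdN).coprime_dvd_right (Nat.totient_dvd_of_dvd hdN)
    · rw [Finset.mem_union]
      rcases le_total 0 ((n : ℤ) + h) with h0 | h0
      · left
        rw [hF, Finset.mem_filter]
        exact ⟨hnS, hL, hdN, by rw [Int.natAbs_of_nonneg h0, one_mul]⟩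
      · right
        rw [hF, Finset.mem_filter]
        exact ⟨hnS, hL, hdN, by rw [Int.ofNat_natAbs_of_nonpos h0]; ring⟩
  have hFp : ∀ d ∈ Q, ∀ e : ℤ, (e = 1 ∨ e = -1) → ((F d e).card : ℝ) ≤
      |K| * S.card * ((P : ℝ) ^ (-a) * ∏ p ∈ d.primeFactors, g p) := by
    intro d hd e he
    rw [hQ, Finset.mem_filter, Finset.mem_Icc] at hd
    obtain ⟨⟨hPd, -⟩, hsq, hdb, hdt, hdk⟩ := hd
    obtain ⟨td, htd⟩ : ∃ td : ℕ, td = ∏ p ∈ d.primeFactors, t (p - 1) := ⟨_, rfl⟩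
    obtain ⟨sd, hsd'⟩ : ∃ sd : ℕ, sd = ∏ p ∈ d.primeFactors, s (p - 1) := ⟨_, rfl⟩
    have hpp : ∀ p ∈ d.primeFactors, p - 1 = t (p - 1) * s (p - 1) ∧ (s (p - 1)).Coprime b := by
      intro p hp
      have := (Nat.prime_of_mem_primeFactors hp).two_le
      obtain ⟨h1, h2, -⟩ := hts (p - 1) (by omega)
      exact ⟨h1, h2⟩
    have hd0 : 0 < d := by omega
    have hφ : d.totient = td * sd := by
      rw [tot_sqf hsq, htd, hsd', ← Finset.prod_mul_distrib]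
      exact Finset.prod_congr rfl fun p hp => (hpp p hp).1
    have hφ0 : 0 < d.totient := Nat.totient_pos.2 hd0
    have ht0 : 0 < td := by
      rcases Nat.eq_zero_or_pos td with h | h
      · rw [hφ, h, zero_mul] at hφ0; omega
      · exact h
    have hs0 : 0 < sd := by
      rcases Nat.eq_zero_or_pos sd with h | h
      · rw [hφ, h, mul_zero] at hφ0; omega
      · exact h
    have ht1 : (0 : ℝ) < td := by exact_mod_cast ht0
    have hs1 : (0 : ℝ) < sd := by exact_mod_cast hs0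
    have hsd : sd ∣ d.totient := ⟨td, by rw [mul_comm]; exact hφ⟩
    have hps : Nat.Coprime d sd := hdt.coprime_dvd_right hsd
    have hsb : Nat.Coprime sd b := by
      rw [hsd']
      exact Nat.Coprime.prod_left fun p hp => (hpp p hp).2
    have hd1 : (0 : ℝ) < d := by exact_mod_cast hd0
    have hgprod : ∏ p ∈ d.primeFactors, g p = (td : ℝ) ^ (-(σ - a)) * (sd : ℝ) ^ (-(2 * σ - a)) := by
      rw [hg, Finset.prod_mul_distrib, htd, hsd']
      push_cast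
      rw [Real.finsetProd_rpow _ _ (fun _ _ => Nat.cast_nonneg _),
        Real.finsetProd_rpow _ _ (fun _ _ => Nat.cast_nonneg _)]
    rw [hgprod]
    -- the power bound
    have hpow : ((d * sd : ℕ) : ℝ) ^ (1 - σ) * (S.card / ((d * sd : ℕ) : ℝ)) ≤
        S.card * ((P : ℝ) ^ (-a) * ((td : ℝ) ^ (-(σ - a)) * (sd : ℝ) ^ (-(2 * σ - a)))) := by
      have e5 : (td : ℝ) * sd ≤ d := by
        have : td * sd ≤ d := by rw [← hφ]; exact Nat.totient_le d
        exact_mod_cast this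
      push_cast
      exact pow_bound a σ S.card d td sd P hS0 hd1 ht1 hs1 hP0
        (by exact_mod_cast (by omega : P ≤ d)) e5 ha0 (by rw [hσ]; linarith)
    rcases (F d e).eq_empty_or_nonempty with hE | ⟨n0, hn0⟩
    · rw [hE, Finset.card_empty, Nat.cast_zero]
      exact mul_nonneg (mul_nonneg (abs_nonneg K) hS0) (by positivity)
    · rw [hF, Finset.mem_filter] at hn0
      have h5 : F d e ⊆ S.filter (fun n => n ≡ n0 [MOD d * sd]) := by
        intro n hn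
        rw [hF, Finset.mem_filter] at hn
        rw [Finset.mem_filter]
        exact ⟨hn.1, pairP hps hsd e he hn.2 hn0.2⟩
      have hqk : (d * sd) ^ B ≤ b ^ k := by
        refine le_trans ?_ hdk
        rw [pow_mul]
        apply Nat.pow_le_pow_left
        rw [sq]
        apply Nat.mul_le_mul_left
        exact (Nat.le_of_dvd hφ0 hsd).trans (Nat.totient_le d)
      have h6 := hequi (d * sd) (Nat.mul_pos hd0 hs0)
        (Nat.Coprime.mul_right hdb.symm hsb.symm) k hqk D hD hD2 n0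
      have h7 : 0 ≤ ((d * sd : ℕ) : ℝ) ^ (1 - σ) * (S.card / ((d * sd : ℕ) : ℝ)) :=
        mul_nonneg (Real.rpow_nonneg (Nat.cast_nonneg _) _) (div_nonneg hS0 (Nat.cast_nonneg _))
      calc ((F d e).card : ℝ) ≤ ((S.filter (fun n => n ≡ n0 [MOD d * sd])).card : ℝ) := by
            exact_mod_cast Finset.card_le_card h5
        _ ≤ K * ((d * sd : ℕ) : ℝ) ^ (1 - σ) * (S.card / ((d * sd : ℕ) : ℝ)) := h6
        _ = K * (((d * sd : ℕ) : ℝ) ^ (1 - σ) * (S.card / ((d * sd : ℕ) : ℝ))) := by ring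
        _ ≤ |K| * (((d * sd : ℕ) : ℝ) ^ (1 - σ) * (S.card / ((d * sd : ℕ) : ℝ))) :=
            mul_le_mul_of_nonneg_right (le_abs_self K) h7
        _ ≤ |K| * (S.card * ((P : ℝ) ^ (-a) *
            ((td : ℝ) ^ (-(σ - a)) * (sd : ℝ) ^ (-(2 * σ - a))))) :=
            mul_le_mul_of_nonneg_left hpow (abs_nonneg K)
        _ = _ := by ring
  have hsum : ∑ d ∈ Q, ∏ p ∈ d.primeFactors, g p ≤ Real.exp C1 :=
    sqf_sum g hg0 C1 hgsum Q (fun d hd => by
      rw [hQ, Finset.mem_filter] at hd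
      exact hd.2.1)
  have hcard : ((S.filter (fun n : ℕ => LehP ((n : ℤ) + h).natAbs ∧
        ∃ d, d ∣ ((n : ℤ) + h).natAbs ∧ d.Coprime b ∧ P < d ∧ d ^ (2 * B) ≤ b ^ k)).card : ℝ) ≤
      ∑ p ∈ Q, (((F p 1).card : ℝ) + (F p (-1)).card) := by
    have h1 := (Finset.card_le_card hsub).trans Finset.card_biUnion_le
    have h2 : ∑ p ∈ Q, (F p 1 ∪ F p (-1)).card ≤ ∑ p ∈ Q, ((F p 1).card + (F p (-1)).card) :=
      Finset.sum_le_sum fun p _ => Finset.card_union_le _ _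
    exact_mod_cast h1.trans h2
  have h8 : ∑ p ∈ Q, (((F p 1).card : ℝ) + (F p (-1)).card) ≤
      ∑ d ∈ Q, (2 * (|K| * S.card * (P : ℝ) ^ (-a))) * ∏ p ∈ d.primeFactors, g p := by
    refine Finset.sum_le_sum fun p hp => ?_
    have g1 := hFp p hp 1 (Or.inl rfl)
    have g2 := hFp p hp (-1) (Or.inr rfl)
    refine le_trans (add_le_add g1 g2) (le_of_eq ?_)
    ring
  refine hcard.trans (h8.trans ?_)
  rw [← Finset.mul_sum]
  have hPa : 0 ≤ (P : ℝ) ^ (-a) := Real.rpow_nonneg hP0.le _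
  have h9 : 0 ≤ 2 * (|K| * S.card * (P : ℝ) ^ (-a)) :=
    mul_nonneg (by norm_num) (mul_nonneg (mul_nonneg (abs_nonneg K) hS0) hPa)
  refine (mul_le_mul_of_nonneg_left hsum h9).trans ?_
  have h10 : 0 ≤ (S.card : ℝ) * (P : ℝ) ^ (-a) := mul_nonneg hS0 hPa
  calc 2 * (|K| * S.card * (P : ℝ) ^ (-a)) * Real.exp C1 =
        2 * |K| * Real.exp C1 * S.card * (P : ℝ) ^ (-a) := by ring
    _ ≤ 2 * |K| * Real.exp C1 * S.card * (P : ℝ) ^ (-a) + (S.card : ℝ) * (P : ℝ) ^ (-a) := by linarith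
    _ = _ := by ring

/-- the structure of the solutions without divisors in `(y, y ^ 2]` -/
theorem altP (b y N H : ℕ) (hb : 2 ≤ b) (hy : 1 ≤ y) (hL : LehP N)
    (hno : ∀ d, d ∣ N → d.Coprime b → y < d → y ^ 2 < d) (hN : N.primeFactors.card ≤ H)
    (hH : (b * y + 1) * H < y ^ 2) : N ≤ b * y := by
  classical
  by_contra hcon
  push Not at hcon
  have hN1 : 1 < N := hL.1
  have hsq := lehP_sqf hL
  obtain ⟨u, m, hum, hu1, hmp⟩ := splitN b y N hb hy hsq hno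
  have huN : u ∣ N := ⟨m, hum.symm⟩
  have hmN : m ∣ N := ⟨u, by rw [mul_comm]; exact hum.symm⟩
  have hu0 : 0 < u := Nat.pos_of_dvd_of_pos huN (by omega)
  have hm0 : 0 < m := Nat.pos_of_dvd_of_pos hmN (by omega)
  have hmu : 1 < m := by
    by_contra h
    have h1 : m = 1 := by omega
    rw [h1, mul_one] at hum
    omega
  have hmr : m.primeFactors.card ≤ H :=
    (Finset.card_le_card (Nat.primeFactors_mono hmN (by omega))).trans hN
  have hcop : Nat.Coprime u m := by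
    have := hsq
    rw [← hum] at this
    exact Nat.coprime_of_squarefree_mul this
  obtain ⟨M, hM⟩ := hL.2
  have hφ : N.totient = u.totient * m.totient := by
    rw [← hum, Nat.totient_mul hcop]
  have hφN : N.totient ≤ N := Nat.totient_le N
  have hM2 : M ≠ 1 := by
    intro h1
    rw [h1, mul_one] at hM
    omega
  have hφm : 0 < m.totient := Nat.totient_pos.2 hm0
  have hφm' : m.totient < m := Nat.totient_lt m hmu
  have hym : y ^ 2 < m := by
    obtain ⟨p, hp, hpm⟩ := Nat.exists_prime_and_dvd (show m ≠ 1 by omega)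
    exact (hmp p hp hpm).trans_le (Nat.le_of_dvd hm0 hpm)
  obtain ⟨X, hX⟩ : ∃ X, X = M * u.totient := ⟨_, rfl⟩
  have hXe : X * m.totient = u * m + 1 := by
    rw [hum, hX, hM, hφ]
    ring
  rcases lt_trichotomy X u with h1 | h1 | h1
  · -- X < u
    have h2 : (X + 1) * m.totient ≤ u * m.totient := Nat.mul_le_mul_right _ h1
    have h3 : u * m.totient ≤ u * m := Nat.mul_le_mul_left _ hφm'.le
    nlinarith
  · -- X = u
    have h2 : M ∣ N := by
      rw [← hum, ← h1, hX]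
      exact ⟨u.totient * m, by ring⟩
    have h3 : M ∣ N + 1 := ⟨N.totient, by rw [hM, mul_comm]⟩
    have h4 := Nat.dvd_sub h3 h2
    rw [show N + 1 - N = 1 by omega] at h4
    exact hM2 (Nat.dvd_one.1 h4)
  · -- u < X
    have h2 : (u + 1) * m.totient ≤ X * m.totient := Nat.mul_le_mul_right _ h1
    have h3 := tot_rough m (y ^ 2) H (by positivity) hmp hmr
    have h4 : (u + 1) * H < y ^ 2 := lt_of_le_of_lt (Nat.mul_le_mul_right _ (by omega)) hH
    have h5 : (u + 1) * m.totient * y ^ 2 ≤ (u * m + 1) * y ^ 2 := by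
      apply Nat.mul_le_mul_right
      omega
    have h6 : (u + 1) * (m * y ^ 2) ≤ (u + 1) * (m.totient * y ^ 2 + m * H) :=
      Nat.mul_le_mul_left _ h3
    -- `m * y ^ 2 ≤ y ^ 2 + m * ((u + 1) * H)`
    have h7 : m * y ^ 2 ≤ y ^ 2 + m * ((u + 1) * H) := by nlinarith
    have h8 : m * ((u + 1) * H + 1) ≤ m * y ^ 2 := Nat.mul_le_mul_left _ h4
    have h9 : m * ((u + 1) * H + 1) ≤ y ^ 2 + m * ((u + 1) * H) := h8.trans h7
    have h10 : m ≤ y ^ 2 := by
      have : m * ((u + 1) * H + 1) = m * ((u + 1) * H) + m := by ring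
      omega
    omega

open Classical in
/-- the power saving -/
theorem powerP {b : ℕ} (hb : 2 ≤ b) : ∃ (L : ℕ) (C : ℝ), 1 ≤ L ∧ 0 < C ∧
    ∀ (k : ℕ) (D : Fin k → Finset ℕ), (∀ i, ∀ d ∈ D i, d < b) → (∀ i, 2 ≤ (D i).card) → ∀ h : ℤ,
      (((Dig b k D).filter (fun n : ℕ => LehP ((n : ℤ) + h).natAbs ∧
        (h.natAbs ≤ 2 ^ 2 ^ (k / L) ∨
          ((n : ℤ) + h).natAbs.primeFactors.card ≤ 2 ^ (k / L)))).card : ℝ) ≤
        C * (Dig b k D).card / 2 ^ (k / L) :=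
  power1Q hb LehP (bigP hb (1 / 2) (by norm_num) (by norm_num))
    (fun y N H hy hG hno hN hH => altP b y N H hb hy hG hno hN hH) (fun N h => h.1)

end Pool.Agent.Q263.LT
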